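import Pool.Agent.Helper94.KC.TW.Gr
import Pool.Agent.Helper41.KC.FD
import Pool.Agent.Helper34.KC.DD

/-!
# Project KC (MP_bf413e_co), part TW: balls
-/

set_option autoImplicit false

namespace Pool.Agent.Helper94.KC.TW

open scoped Classical
open Finset
open Pool.Agent.Helper94.KC
open Pool.Agent.Helper30.KC
open Pool.Agent.Helper41.KC (bd_outer notMem_foldr mem_wed)

variable {V : Type} [Fintype V] {T : Finset (Finset V)}

/-- the ball -/
noncomputable def bl (T : Finset (Finset V)) (x : V) (k : ℕ) : Finset V :=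
  univ.filter (fun v => (sk T).dist x v ≤ k)

theorem mem_bl {x v : V} {k : ℕ} : v ∈ bl T x k ↔ (sk T).dist x v ≤ k := by
  simp [bl]

theorem bl_mono {x : V} {k l : ℕ} (h : k ≤ l) : bl T x k ⊆ bl T x l := by
  intro v hv
  rw [mem_bl] at hv ⊢
  omega

theorem dist_adj (hT : Surf T) {x u v : V} (h : (sk T).Adj u v) :
    (sk T).dist x v ≤ (sk T).dist x u + 1 := by
  have h1 := hT.conn.dist_triangle (u := x) (v := u) (w := v)
  have h2 : (sk T).dist u v = 1 := SimpleGraph.dist_eq_one_iff_adj.2 h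
  omega

theorem tri_dist (hT : Surf T) {x u v : V} {t : Finset V} (ht : t ∈ T) (hu : u ∈ t) (hv : v ∈ t) :
    (sk T).dist x v ≤ (sk T).dist x u + 1 := by
  by_cases h : u = v
  · rw [h]; omega
  · exact dist_adj hT ⟨h, t, ht, hu, hv⟩

/-- a predecessor on a shortest path -/
theorem pred (hT : Surf T) {x v : V} {k : ℕ} (h : (sk T).dist x v = k + 1) :
    ∃ u, (sk T).Adj u v ∧ (sk T).dist x u = k := by
  obtain ⟨p, hp⟩ := hT.conn.exists_walk_length_eq_dist v x
  cases p with
  | nil =>
    rw [SimpleGraph.dist_self] at h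
    omega
  | @cons _ u _ hadj q =>
    refine ⟨u, hadj.symm, ?_⟩
    rw [SimpleGraph.Walk.length_cons, SimpleGraph.dist_comm, h] at hp
    have h1 : (sk T).dist u x ≤ q.length := SimpleGraph.dist_le q
    have h2 := dist_adj hT (x := x) hadj.symm
    rw [SimpleGraph.dist_comm] at h1
    omega

theorem reach (hT : Surf T) (x : V) (k : ℕ) :
    ∀ n : ℕ, ∀ v, (sk T).dist x v = n → n ≤ k + 1 → (gr (FB T (bl T x k))).Reachable x v := by
  intro n
  induction n with
  | zero =>
    intro v hv _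
    have : x = v := (hT.conn.dist_eq_zero_iff).1 hv
    rw [this]
  | succ n ih =>
    intro v hv hn
    obtain ⟨u, huv, hu⟩ := pred hT hv
    refine (ih u hu (by omega)).trans (SimpleGraph.Adj.reachable ?_)
    obtain ⟨hne, t, ht, hut, hvt⟩ := huv
    refine ⟨hne, mem_FB.2 ⟨?_, t, mem_TB.2 ⟨ht, u, ?_⟩, ?_⟩⟩
    · refine Finset.mem_filter.2 ⟨Finset.mem_univ _, Finset.card_pair hne, t, ht, ?_⟩
      intro a ha
      rw [Finset.mem_insert, Finset.mem_singleton] at ha
      rcases ha with rfl | rfl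
      · exact hut
      · exact hvt
    · rw [Finset.mem_inter, mem_bl]
      exact ⟨hut, by omega⟩
    · intro a ha
      rw [Finset.mem_insert, Finset.mem_singleton] at ha
      rcases ha with rfl | rfl
      · exact hut
      · exact hvt

/-- growth of balls -/
theorem gstep (hT : Surf T) (x : V) (k : ℕ) (hne : bl T x (k + 1) ≠ univ) :
    (tk T (bl T x (k + 1)) 1 : ℤ) ≤ tk T (bl T x k) 1 + 6 +
      ∑ v ∈ bl T x (k + 1), ((dg T v : ℤ) - 6) ∧
    ((∃ z ⊆ FB T (bl T x k), Even2 z ∧ ∀ D' ⊆ trW T (bl T x (k + 1)), bd T D' ≠ z) →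
      (tk T (bl T x (k + 1)) 1 : ℤ) ≤ tk T (bl T x k) 1 +
        ∑ v ∈ bl T x (k + 1), ((dg T v : ℤ) - 6)) := by
  apply growth hT
  · exact ⟨x, mem_bl.2 (by rw [SimpleGraph.dist_self]; omega)⟩
  · exact hne
  · rintro t ht ⟨u, hu⟩ v hv
    rw [Finset.mem_inter, mem_bl] at hu
    rw [mem_bl]
    have := tri_dist hT (x := x) ht hu.1 hv
    omega
  · intro u hu v hv
    rw [mem_bl] at hu hv
    exact (reach hT x k _ u rfl hu).symm.trans (reach hT x k _ v rfl hv)

theorem gzero (hT : Surf T) (x : V) (hne : bl T x 0 ≠ univ) :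
    (tk T (bl T x 0) 1 : ℤ) ≤ 6 + ∑ v ∈ bl T x 0, ((dg T v : ℤ) - 6) := by
  have h := (growth hT ∅ (bl T x 0) ⟨x, mem_bl.2 (by rw [SimpleGraph.dist_self])⟩ hne
    (by
      rintro t _ ⟨u, hu⟩
      rw [Finset.mem_inter] at hu
      exact absurd hu.2 (Finset.notMem_empty _))
    (by
      intro u hu v hv
      rw [mem_bl] at hu hv
      have h1 : x = u := (hT.conn.dist_eq_zero_iff).1 (by omega)
      have h2 : x = v := (hT.conn.dist_eq_zero_iff).1 (by omega)
      rw [← h1, ← h2])).1
  have h0 : tk T (∅ : Finset V) 1 = 0 := by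
    unfold tk
    rw [Finset.card_eq_zero, Finset.filter_eq_empty_iff]
    intro t _
    simp
  rw [h0] at h
  simpa using h

/-- growth of balls, summed -/
theorem gsum (hT : Surf T) (x : V) : ∀ k : ℕ, bl T x k ≠ univ →
    (tk T (bl T x k) 1 : ℤ) ≤ 6 * (k + 1) +
      ∑ j ∈ range (k + 1), ∑ v ∈ bl T x j, ((dg T v : ℤ) - 6) := by
  intro k
  induction k with
  | zero =>
    intro hne
    have := gzero hT x hne
    simpa using this
  | succ k ih =>
    intro hne
    have h1 := (gstep hT x k hne).1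
    have h2 := ih (by
      intro h
      apply hne
      apply Finset.eq_univ_of_forall
      intro v
      exact bl_mono (Nat.le_succ k) (by rw [h]; exact Finset.mem_univ v))
    rw [Finset.sum_range_succ]
    push_cast
    linarith

/-- the boundary of a ball around a point of the shortest cycle is long -/
theorem lower (hT : Surf T) {c : ℕ} (hEW : EW T c) {x₀ : V} {w : (sk T).Walk x₀ x₀}
    (hw : Shortest T w) {x : V} (hx : x ∈ w.support) (k : ℕ) (hc : tk T (bl T x k) 1 < c)
    {y : V} (hy : y ∈ w.support) (hxy : 2 * (k + 1) + tk T (bl T x k) 1 < 2 * (sk T).dist x y) :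
    2 * (k + 1) ≤ tk T (bl T x k) 1 := by
  obtain ⟨ev1, ev2, ev3, ev4, ev5, ev6⟩ := ev V T hT
  set W := bl T x k with hW
  set TU := trW T (univ \ W) with hTU
  have hTUT : TU ⊆ T := Finset.filter_subset _ _
  set z := bd T TU with hz
  have hzed : z ⊆ ed T := Finset.filter_subset _ _
  have hzE : Even2 z := ev3 TU hTUT
  have hzcard : z.card ≤ tk T W 1 := by
    have hsub : z ⊆ (T.filter (fun t => (t ∩ W).card = 1)).image (fun t => t \ W) := by
      intro e he
      obtain ⟨_, t', ht', _, h1, h2⟩ := bd_outer hT W he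
      exact Finset.mem_image.mpr ⟨t', Finset.mem_filter.mpr ⟨ht', h1⟩, h2⟩
    exact (Finset.card_le_card hsub).trans Finset.card_image_le
  obtain ⟨L, hL1, hL2⟩ := Pool.Agent.Helper34.KC.dd ev cy V T hT c hEW z hzed hzE (by omega)
  set S := L.foldr symmDiff ∅ with hSdef
  have hST : S ⊆ T := by
    intro t ht
    by_contra htT
    apply notMem_foldr L t _ ht
    intro D hD htD
    obtain ⟨_, _, _, _, hdisc⟩ := hL2 D hD
    exact htT (hdisc.sub htD)
  have hsym : symmDiff S TU = ∅ ∨ symmDiff S TU = T := by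
    apply ev6
    · intro t ht
      rw [Finset.mem_symmDiff] at ht
      rcases ht with h | h
      · exact hST h.1
      · exact hTUT h.1
    · rw [ev1, hL1]
      exact symmDiff_self _
  -- the vertices of the boundary cycles are at distance `k + 1`
  have hbdy : ∀ D ∈ L, ∃ (y' : V) (wD : (sk T).Walk y' y'), wD.IsCycle ∧ Disc T D (wed wD) ∧
      wD.length ≤ tk T W 1 ∧ ∀ a ∈ wD.support, (sk T).dist x a = k + 1 := by
    intro D hD
    obtain ⟨y', wD, hwD, hwDz, hdisc⟩ := hL2 D hD
    refine ⟨y', wD, hwD, hdisc, ?_, ?_⟩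
    · rw [← (ev4 y' wD hwD).2.1]
      exact (Finset.card_le_card hwDz).trans hzcard
    · intro a ha
      have hnil : ¬ wD.Nil := hwD.not_nil
      obtain ⟨e, he, hae⟩ :=
        (SimpleGraph.Walk.mem_support_iff_exists_mem_edges_of_not_nil hnil).mp ha
      have hfe : e.toFinset ∈ wed wD := (mem_wed wD _).mpr ⟨e, he, rfl⟩
      obtain ⟨hU, t', ht', het', h1, h2⟩ := bd_outer hT W (hwDz hfe)
      have hae' : a ∈ e.toFinset := Sym2.mem_toFinset.mpr hae
      obtain ⟨v, hv⟩ := Finset.card_pos.mp (by rw [h1]; exact Nat.one_pos : 0 < (t' ∩ W).card)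
      rw [Finset.mem_inter, hW, mem_bl] at hv
      have h3 := tri_dist hT (x := x) ht' hv.1 (het' hae')
      have h4 : ¬ (sk T).dist x a ≤ k := by
        intro h
        exact (Finset.mem_sdiff.mp (hU hae')).2 (by rw [hW, mem_bl]; exact h)
      omega
  have hkey : ∀ D ∈ L, ∀ t ∈ D, ∀ v ∈ w.support, v ∈ t → (sk T).dist x v ≠ k + 1 →
      ∃ p, (sk T).dist x p = k + 1 ∧ 2 * (sk T).dist v p ≤ tk T W 1 := by
    intro D hD t htD v hv hvt hne
    obtain ⟨y', wD, hwD, hdisc, hlen, hsup⟩ := hbdy D hD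
    obtain ⟨p, hp, hpd⟩ := Pool.Agent.Helper30.KC.ar V T hT x₀ w hw v hv D y' wD hwD hdisc
      ⟨t, htD, hvt⟩ (fun h => hne (hsup v h))
    exact ⟨p, hsup p hp, by omega⟩
  rcases hsym with h | h
  · -- the discs cover the far side
    have hSTU : S = TU := symmDiff_eq_bot.mp h
    exfalso
    obtain ⟨t, ht, hyt⟩ := hT.cover y
    have htTU : t ∈ TU := by
      refine Finset.mem_filter.2 ⟨ht, ?_⟩
      intro a ha
      rw [Finset.mem_sdiff]
      refine ⟨Finset.mem_univ a, ?_⟩
      rw [hW, mem_bl]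
      intro hak
      have := tri_dist hT (x := x) ht ha hyt
      omega
    rw [← hSTU] at htTU
    obtain ⟨D, hD, htD⟩ : ∃ D ∈ L, t ∈ D := by
      by_contra hcon
      push Not at hcon
      exact notMem_foldr L t hcon htTU
    obtain ⟨p, hp1, hp2⟩ := hkey D hD t htD y hy hyt (by omega)
    have h2 := hT.conn.dist_triangle (u := x) (v := p) (w := y)
    rw [SimpleGraph.dist_comm (u := p) (v := y)] at h2
    omega
  · -- the discs cover the ball
    obtain ⟨t, ht, hxt⟩ := hT.cover x
    have htTU : t ∉ TU := by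
      intro h2
      have h3 := (Finset.mem_filter.mp h2).2 hxt
      refine (Finset.mem_sdiff.mp h3).2 ?_
      rw [hW, mem_bl, SimpleGraph.dist_self]
      omega
    have htS : t ∈ S := by
      have h3 : t ∈ symmDiff S TU := by
        rw [h]
        exact ht
      rw [Finset.mem_symmDiff] at h3
      tauto
    obtain ⟨D, hD, htD⟩ : ∃ D ∈ L, t ∈ D := by
      by_contra hcon
      push Not at hcon
      exact notMem_foldr L t hcon htS
    obtain ⟨p, hp1, hp2⟩ := hkey D hD t htD x hx hxt (by rw [SimpleGraph.dist_self]; omega)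
    omega

end Pool.Agent.Helper94.KC.TW
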