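import Pool.Agent.Helper94.KC.TW.Fin

/-!
# Project KC (MP_bf413e_co), part TW: each cluster of hubs in a disc, or of small diameter
-/

set_option autoImplicit false

namespace Pool.Agent.Helper94.KC.TW

open scoped Classical
open Finset
open Pool.Agent.Helper94.KC
open Pool.Agent.Helper30.KC
open Pool.Agent.Helper96.KT (ew_mono dev_dist)

variable {V : Type} [Fintype V] {T : Finset (Finset V)}

/-- Theorem C: every chain of hubs lies in the interior of a disc, or has small diameter -/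
theorem clus_main (hT : Surf T) (hEW : EW T 42600) {x₀ : V}
    {w : (sk T).Walk x₀ x₀} (hw : Shortest T w) {x : V} (hx : x ∈ w.support)
    (hhub : ∀ h, 7 ≤ dg T h → 1330 < (sk T).dist x h)
    (hcl : ∀ h, 7 ≤ dg T h →
      (∃ Δ z : Finset (Finset V), z.Nonempty ∧ Disc T Δ z ∧
        (∀ h', (HG T).Reachable h h' → ∀ v, (sk T).dist h' v ≤ 2 → ∀ t ∈ T, v ∈ t → t ∈ Δ) ∧
        ∀ t ∈ Δ, ∀ v ∈ t, 644 < (sk T).dist x v) ∨
      ∃ ρ, (∀ h', (HG T).Reachable h h' → (sk T).dist h h' ≤ ρ) ∧ EW T (2 * ρ + 6) ∧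
        2 * ρ + 648 < (sk T).dist x h) :
    ∀ G ≤ sk T, AllEq G := by
  have hc := hT.conn
  refine main_gen hT hEW hw hx hhub ?_
  intro y hy hxy h h7
  rcases hcl h h7 with ⟨Δ, z, hne, hΔ, hin, hfar⟩ | ⟨ρ, h1, h2, h3⟩
  · refine ⟨univ.filter (fun v => ∀ t ∈ T, v ∈ t → t ∈ Δ), ?_, ?_⟩
    · intro h' hr v hv
      rw [Finset.mem_filter]
      exact ⟨Finset.mem_univ _, hin h' hr v hv⟩
    · refine ines_of_disc hT hΔ hne ?_ ?_
      · intro v hv
        exact (Finset.mem_filter.1 hv).2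
      · intro t ht hyt
        have := hfar t ht y hyt
        omega
  · refine ⟨bl T h (ρ + 2), ?_, ?_⟩
    · intro h' hr v hv
      rw [mem_bl]
      have h4 := h1 h' hr
      have h5 := hc.dist_triangle (u := h) (v := h') (w := v)
      omega
    · refine ines_of_ball hT h2 hw hy ?_
      have h4 := hc.dist_triangle (u := x) (v := y) (w := h)
      omega

end Pool.Agent.Helper94.KC.TW
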