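import Pool.Agent.Helper94.KC.TUS
import Pool.Agent.Helper85.KC.IN

/-!
# Project KC (MP_bf413e_co), part TW: inessential clusters of hubs
-/

set_option autoImplicit false

namespace Pool.Agent.Helper94.KC.TW

open scoped Classical
open Finset
open Pool.Agent.Helper94.KC
open Pool.Agent.Helper30.KC
open Pool.Agent.Helper30.ML (Mac rs del)

variable {V : Type} [Fintype V] {T : Finset (Finset V)}

/-- a planar piece: bounded by a cycle inside `M`, all cycles in it bound, and it has no triangle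
at `x` -/
def PD (T : Finset (Finset V)) (x : V) (M : Finset V) (D : Finset (Finset V)) : Prop :=
  ∃ (y : V) (w' : (sk T).Walk y y), w'.IsCycle ∧ (∀ v ∈ w'.support, v ∈ M) ∧ D ⊆ T ∧
    bd T D = wed w' ∧ (∀ z ⊆ ed D, Even2 z → Bounds T z) ∧ ∀ t ∈ D, x ∉ t

/-- `M` is inessential from the point of view of `x` -/
def Ines (T : Finset (Finset V)) (x : V) (M : Finset V) : Prop :=
  ∀ z ⊆ ed T, Even2 z → (∀ e ∈ z, ∀ v ∈ e, v ∈ M) →
    ∃ L : List (Finset (Finset V)), bd T (L.foldr symmDiff ∅) = z ∧ ∀ D ∈ L, PD T x M D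

/-- the clusters of hubs are inessential from the point of view of `x` -/
def HubIn (T : Finset (Finset V)) (x : V) : Prop :=
  ∀ h, 7 ≤ dg T h → ∃ M : Finset V,
    (∀ h', (HG T).Reachable h h' → ∀ v, (sk T).dist h' v ≤ 2 → v ∈ M) ∧ Ines T x M

/-- a cycle crosses a planar piece -/
theorem axs (hT : Surf T) {x₀ : V} (w₀ : (sk T).Walk x₀ x₀) (hw₀ : w₀.IsCycle)
    (hnb₀ : ¬ Bounds T (wed w₀)) {x : V} (hx : x ∈ w₀.support) (D : Finset (Finset V)) {y : V}
    (w' : (sk T).Walk y y) (hw' : w'.IsCycle) (hDT : D ⊆ T) (hDb : bd T D = wed w')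
    (hbd : ∀ z ⊆ ed D, Even2 z → Bounds T z) (hxD : ∃ t ∈ D, x ∈ t) (hxw' : x ∉ w'.support) :
    ∃ A ⊆ wed w₀, ∃ B ⊆ wed w', Even2 (symmDiff A B) ∧ Bounds T (symmDiff A B) ∧
      ∀ e ∈ wed w₀, x ∈ e → e ∈ A := by
  obtain ⟨ev1, ev2, ev3, ev4, ev5, ev6⟩ := ev V T hT
  obtain ⟨w, hwc, hwe⟩ : ∃ w : (sk T).Walk x x, w.IsCycle ∧ wed w = wed w₀ :=
    ⟨w₀.rotate x hx, hw₀.rotate hx, Pool.Agent.Helper39.KC.wed_rotate w₀ hx⟩
  have hnb : ¬ Bounds T (wed w) := by rw [hwe]; exact hnb₀
  have hS : ∀ v, v ∉ ({v | v ∈ w'.support} : Set V) → (∃ t ∈ D, v ∈ t) →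
      ∀ t ∈ T, v ∈ t → t ∈ D := by
    intro v hv ⟨t', ht', hvt'⟩ t ht hvt
    refine Pool.Agent.Helper85.KC.around hT hDT v ?_ ht' hvt' ht hvt
    intro e he hve
    rw [hDb] at he
    exact hv (Pool.Agent.Helper39.KC.mem_support_of_wed w' he hve)
  have hxint : ∀ t ∈ T, x ∈ t → t ∈ D := hS x hxw' hxD
  have hno : ¬ wed w ⊆ ed D := fun h => hnb (hbd _ h (ev4 x w hwc).1)
  -- first hit in both directions
  rcases Pool.Agent.Helper39.KC.hit hS w hxint with h1 | ⟨p, hp, W1, W2, hW, hW1⟩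
  · exact absurd h1 hno
  rcases Pool.Agent.Helper39.KC.hit hS W2.reverse hxint with h1 | ⟨q, hq, V1, V2, hV, hV1⟩
  · exfalso
    apply hno
    rw [hW, Pool.Agent.Helper39.KC.wed_append]
    rw [Pool.Agent.Helper39.KC.wed_reverse] at h1
    exact Finset.union_subset hW1 h1
  have hp' : p ∈ w'.support := hp
  have hq' : q ∈ w'.support := hq
  have hW2 : W2 = V2.reverse.append V1.reverse := by
    rw [← SimpleGraph.Walk.reverse_append, ← hV, SimpleGraph.Walk.reverse_reverse]
  have htrail : (V1.reverse.append W1).IsTrail := by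
    rw [SimpleGraph.Walk.isTrail_def]
    have h1 := hwc.isTrail.edges_nodup
    rw [hW, hW2, SimpleGraph.Walk.edges_append, SimpleGraph.Walk.edges_append] at h1
    rw [SimpleGraph.Walk.edges_append]
    have h2 := (List.nodup_append'.1 h1)
    have h3 := (List.nodup_append'.1 h2.2.1)
    refine List.nodup_append'.2 ⟨h3.2.1, h2.1, ?_⟩
    intro e he1 he2
    exact h2.2.2 he2 (List.mem_append_right _ he1)
  have hAw : wed (V1.reverse.append W1) ⊆ wed w₀ := by
    rw [← hwe, hW, hW2, Pool.Agent.Helper39.KC.wed_append, Pool.Agent.Helper39.KC.wed_append,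
      Pool.Agent.Helper39.KC.wed_append]
    intro e he
    rw [Finset.mem_union] at he
    rw [Finset.mem_union, Finset.mem_union]
    tauto
  have hAD : wed (V1.reverse.append W1) ⊆ ed D := by
    rw [Pool.Agent.Helper39.KC.wed_append, Pool.Agent.Helper39.KC.wed_reverse]
    exact Finset.union_subset hV1 hW1
  have hxp : x ≠ p := fun h => hxw' (h ▸ hp')
  have hxq : x ≠ q := fun h => hxw' (h ▸ hq')
  obtain ⟨b, hb1, hb2⟩ : ∃ b : (sk T).Walk p q, b.IsTrail ∧ wed b ⊆ wed w' := by
    by_cases hpq : p = q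
    · subst hpq
      refine ⟨SimpleGraph.Walk.nil, SimpleGraph.Walk.IsTrail.nil, ?_⟩
      rw [Pool.Agent.Helper39.KC.wed_nil]; exact Finset.empty_subset _
    · obtain ⟨A, B, hA, hB, hlen, _, hun, _, _⟩ := ac V (sk T) y p q w' hw' hp' hq' hpq
      refine ⟨A, hA.isTrail, ?_⟩
      rw [← hun]; exact Finset.subset_union_left
  have hw'D : wed w' ⊆ ed D := by
    rw [← hDb]
    intro e he
    simp only [bd, Finset.mem_filter] at he
    obtain ⟨he1, he2⟩ := he
    simp only [ed, Finset.mem_filter, Finset.mem_univ, true_and] at he1 ⊢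
    refine ⟨he1.1, ?_⟩
    have h1 : (D.filter (fun t => e ⊆ t)).Nonempty := by
      rw [← Finset.card_pos]
      exact he2.pos
    obtain ⟨t, ht⟩ := h1
    rw [Finset.mem_filter] at ht
    exact ⟨t, ht.1, ht.2⟩
  have hsub : symmDiff (wed (V1.reverse.append W1)) (wed b) ⊆ ed D := by
    intro e he
    rw [Finset.mem_symmDiff] at he
    rcases he with h | h
    · exact hAD h.1
    · exact hw'D (hb2 h.1)
  have hev := Pool.Agent.Helper39.KC.even_symmDiff (V1.reverse.append W1) b htrail hb1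
  refine ⟨wed (V1.reverse.append W1), hAw, wed b, hb2, hev, hbd _ hsub hev, ?_⟩
  intro e he hxe
  rw [← hwe, hW, hW2, Pool.Agent.Helper39.KC.wed_append, Pool.Agent.Helper39.KC.wed_append,
    Finset.mem_union, Finset.mem_union] at he
  rw [Pool.Agent.Helper39.KC.wed_append, Finset.mem_union]
  rcases he with h | h | h
  · exact Or.inr h
  · exfalso
    have hxs : x ∈ V2.reverse.support := Pool.Agent.Helper39.KC.mem_support_of_wed _ h hxe
    have hx2 : x ∈ V2.reverse.support.tail :=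
      ((SimpleGraph.Walk.mem_support_iff _).1 hxs).resolve_left hxp
    have hxs1 : x ∈ V1.reverse.support := SimpleGraph.Walk.end_mem_support _
    have hx1 : x ∈ V1.reverse.support.tail :=
      ((SimpleGraph.Walk.mem_support_iff _).1 hxs1).resolve_left hxq
    have hnd := hwc.support_nodup
    rw [hW, hW2, SimpleGraph.Walk.tail_support_append, SimpleGraph.Walk.tail_support_append] at hnd
    exact (List.nodup_append'.1 (List.nodup_append'.1 hnd).2.1).2.2 hx2 hx1
  · exact Or.inl h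

/-- only one cluster -/
theorem scs (hT : Surf T) {W : Finset V} (hS : Stk T W) {h x u : V} (h7 : 7 ≤ dg T h)
    (hx : x ∈ W) (hu : u ∉ W) (hxu : (sk T).Adj x u) (huN : u ∈ NK T h)
    (hmb : Bounds T (mK T W h)) :
    (∀ t ∈ T, (t ∩ W).Nonempty → ∀ v ∈ t, v ∉ W → v ∈ NK T h) ∧
      bd T (trW T W) = dW T W h := by
  obtain ⟨e1, -, -, -, -, -⟩ := ev V T hT
  obtain ⟨-, -, -, uh4⟩ := uh V T W hT hS
  obtain ⟨mk1, ⟨mk2, mk3⟩, mk4, -, mk6, mk7⟩ := mk V T W h hT hS h7
  obtain ⟨S, hST, hL⟩ := hmb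
  have hDbT : Db T W h ⊆ T := filter_subset _ _
  have hDaT : Da T W h ⊆ T := filter_subset _ _
  have hb : Bounds T (dW T W h) := by
    refine ⟨symmDiff (Db T W h) S, ?_, ?_⟩
    · intro t ht
      rw [mem_symmDiff] at ht
      rcases ht with ht | ht
      · exact hDbT ht.1
      · exact hST ht.1
    · rw [e1, hL, mk2, symmDiff_symmDiff_cancel_right]
  have hWu : W ≠ univ := by
    rintro rfl
    exact hu (mem_univ u)
  obtain ⟨D', hD', hbd'⟩ := Pool.Agent.Helper30.KC.inn V T hT W hWu hS.cu (dW T W h) mk6 hb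
  have hD'T : D' ⊆ T := fun t ht => (mem_filter.1 (hD' ht)).1
  have hD'W : ∀ t ∈ D', t ⊆ W := fun t ht => (mem_filter.1 (hD' ht)).2
  set F := symmDiff (symmDiff D' (Da T W h)) (Db T W h) with hF
  have hmem : ∀ t, t ∈ F ↔ ¬ ((¬ (t ∈ D' ↔ t ∈ Da T W h)) ↔ t ∈ Db T W h) := by
    intro t
    rw [hF, mem_symmDiff, mem_symmDiff]
    tauto
  have hFT : F ⊆ T := by
    intro t ht
    rw [hF, mem_symmDiff, mem_symmDiff] at ht
    rcases ht with ⟨ht | ht, -⟩ | ht
    · exact hD'T ht.1
    · exact hDaT ht.1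
    · exact hDbT ht.1
  have hFb : ∀ y ∈ W, ∀ e ∈ bd T F, y ∉ e := by
    intro y hy e he hye
    have h1 : bd T F = symmDiff (bd T (Da T W h)) (mK T W h) := by
      rw [hF, e1, e1, hbd', mk2]
      ext s
      simp only [mem_symmDiff]
      tauto
    rw [h1] at he
    exact mk3 e he y hye hy
  have hDa_not : ∀ t ∈ Da T W h, (t ∩ W).card = 1 ∧ ∃ v ∈ t, v ∉ W ∧ v ∈ NK T h := fun t ht =>
    (mem_filter.1 ht).2
  have hDb_not : ∀ t ∈ Db T W h, (t ∩ W).card = 2 ∧ ∃ v ∈ t, v ∉ W ∧ v ∈ NK T h := fun t ht =>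
    (mem_filter.1 ht).2
  obtain ⟨t0, ht0, hxt0, hut0⟩ := hxu.2
  have ht0F : t0 ∈ F := by
    have h1 : (t0 ∩ W).Nonempty := ⟨x, mem_inter.2 ⟨hxt0, hx⟩⟩
    have h2 : (t0 ∩ W).card ≤ 2 := by
      have h3 : t0 ∩ W ⊆ t0.erase u := by
        intro v hv
        rw [mem_inter] at hv
        rw [mem_erase]
        refine ⟨?_, hv.1⟩
        rintro rfl
        exact hu hv.2
      have h4 := card_le_card h3
      rw [card_erase_of_mem hut0, hT.card t0 ht0] at h4
      exact h4
    have h3 : 0 < (t0 ∩ W).card := card_pos.2 h1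
    have h4 : t0 ∉ D' := fun h5 => hu (hD'W t0 h5 hut0)
    rw [hmem]
    rcases (by omega : (t0 ∩ W).card = 1 ∨ (t0 ∩ W).card = 2) with h5 | h5
    · have h6 : t0 ∈ Da T W h := mem_filter.2 ⟨ht0, h5, u, hut0, hu, huN⟩
      have h7' : t0 ∉ Db T W h := fun h8 => by
        have := (hDb_not t0 h8).1
        omega
      tauto
    · have h6 : t0 ∈ Db T W h := mem_filter.2 ⟨ht0, h5, u, hut0, hu, huN⟩
      have h7' : t0 ∉ Da T W h := fun h8 => by
        have := (hDa_not t0 h8).1
        omega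
      tauto
  have key : ∀ y, (gr (edW T W)).Reachable x y → y ∈ W ∧ ∃ t ∈ F, y ∈ t := by
    intro y hr
    rw [SimpleGraph.reachable_iff_reflTransGen] at hr
    induction hr with
    | refl => exact ⟨hx, t0, ht0F, hxt0⟩
    | tail _ hpq ih =>
      rename_i p q _
      obtain ⟨hne, hm⟩ := hpq
      unfold edW at hm
      rw [mem_filter] at hm
      obtain ⟨hm1, hm2⟩ := hm
      unfold ed at hm1
      rw [mem_filter] at hm1
      obtain ⟨-, -, s, hs, hss⟩ := hm1
      have hps : p ∈ s := hss (mem_insert_self p {q})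
      have hqs : q ∈ s := hss (mem_insert_of_mem (mem_singleton_self q))
      have hqW : q ∈ W := hm2 (mem_insert_of_mem (mem_singleton_self q))
      obtain ⟨hpW, t, ht, hpt⟩ := ih
      exact ⟨hqW, s, Pool.Agent.Helper85.KC.around hT hFT p (hFb p hpW) ht hpt hs hps, hqs⟩
  have all : ∀ t ∈ T, (t ∩ W).Nonempty → t ∈ F := by
    intro t ht hne
    obtain ⟨y, hy⟩ := hne
    rw [mem_inter] at hy
    obtain ⟨-, s, hs, hys⟩ := key y (hS.cw x hx y hy.2)
    exact Pool.Agent.Helper85.KC.around hT hFT y (hFb y hy.2) hs hys ht hy.1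
  constructor
  · intro t ht hne v hv hvW
    have h1 := (hmem t).1 (all t ht hne)
    have h2 : t ∉ D' := fun h3 => hvW (hD'W t h3 hv)
    have h3 : t ∈ Da T W h ∨ t ∈ Db T W h := by tauto
    obtain ⟨u', hu't, hu'W, hu'N⟩ : ∃ u' ∈ t, u' ∉ W ∧ u' ∈ NK T h := by
      rcases h3 with h3 | h3
      · exact (hDa_not t h3).2
      · exact (hDb_not t h3).2
    exact uh4 h t ht hne u' hu't v hv hu'W hvW hu'N
  · have h1 : D' = trW T W := by
      refine Subset.antisymm hD' fun t ht => ?_
      unfold trW at ht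
      rw [mem_filter] at ht
      have h2 : (t ∩ W).Nonempty := by
        rw [inter_eq_left.2 ht.2]
        rw [← card_pos, hT.card t ht.1]
        norm_num
      have h3 := (hmem t).1 (all t ht.1 h2)
      have h4 : t ∉ Da T W h := fun h5 => by
        obtain ⟨-, v, hv, hvW, -⟩ := hDa_not t h5
        exact hvW (ht.2 hv)
      have h5 : t ∉ Db T W h := fun h5 => by
        obtain ⟨-, v, hv, hvW, -⟩ := hDb_not t h5
        exact hvW (ht.2 hv)
      tauto
    rw [← h1, hbd']

theorem foldr_sub (L : List (Finset (Finset V))) (h : ∀ D ∈ L, D ⊆ T) :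
    L.foldr symmDiff ∅ ⊆ T := by
  induction L with
  | nil => exact empty_subset _
  | cons D L ih =>
    rw [List.foldr_cons]
    intro t ht
    rw [mem_symmDiff] at ht
    rcases ht with ht | ht
    · exact h D (by simp) ht.1
    · exact ih (fun D' hD' => h D' (List.mem_cons_of_mem _ hD')) ht.1

/-- cycles which leave `M` only inside `W` bound -/
theorem cas (hT : Surf T) {W M : Finset V} {h x : V} {L : List (Finset (Finset V))}
    (hM : ∀ h', (HG T).Reachable h h' → ∀ v, (sk T).dist h' v ≤ 2 → v ∈ M)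
    (hBB : ∀ z ⊆ ed T, Even2 z → (∀ e ∈ z, ∀ v ∈ e, v ∈ M) → Bounds T z)
    (HU : ∀ t ∈ T, (t ∩ W).Nonempty → ∀ v ∈ t, v ∉ W → v ∈ NK T h)
    (hL : ∀ D ∈ L, PD T x M D) (hcov : ∀ t ∈ trW T W, ∃ D ∈ L, t ∈ D) :
    ∀ z ⊆ ed T, Even2 z → (∀ e ∈ z, ∀ v ∈ e, v ∉ M → v ∈ W) → Bounds T z := by
  obtain ⟨hadd, hev, -, hcyc, -, -⟩ := ev V T hT
  let Nf : Finset (Finset V) → Finset (Finset V) := fun z =>
    z.filter (fun e => ∃ v ∈ e, v ∉ M)
  have key : ∀ n : ℕ, ∀ z : Finset (Finset V), (Nf z).card = n → z ⊆ ed T → Even2 z →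
      (∀ e ∈ z, ∀ v ∈ e, v ∉ M → v ∈ W) → Bounds T z := by
    intro n
    induction n using Nat.strong_induction_on with
    | _ n ih =>
      intro z hzn hz hz2 hzW
      by_contra hzb
      obtain ⟨x, w, hw, hwz, hwb⟩ := cn2 V T hT z hz hz2 hzb
      obtain ⟨hw2, -, hwe⟩ := hcyc x w hw
      by_cases hfar : ∃ e ∈ wed w, ∃ v ∈ e, v ∉ M
      · obtain ⟨e₀, he₀, v, hv, hdv⟩ := hfar
        have hvW : v ∈ W := hzW e₀ (hwz he₀) v hv hdv
        -- all neighbours of `v` are in `W`
        have hnb : ∀ u, (sk T).Adj v u → u ∈ W := by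
          intro u hu
          by_contra huW
          obtain ⟨hne, t, ht, hvt, hut⟩ := hu
          have hNK := HU t ht ⟨v, mem_inter.2 ⟨hvt, hvW⟩⟩ u hut huW
          unfold NK at hNK
          rw [mem_filter] at hNK
          obtain ⟨-, h', hr, -, hadj⟩ := hNK
          have hadj2 : (sk T).Adj u v := ⟨hne.symm, t, ht, hut, hvt⟩
          have h2 : (sk T).dist h' u = 1 := SimpleGraph.dist_eq_one_iff_adj.2 hadj.symm
          have h3 : (sk T).dist u v = 1 := SimpleGraph.dist_eq_one_iff_adj.2 hadj2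
          have h5 := hT.conn.dist_triangle (u := h') (v := u) (w := v)
          exact hdv (hM h' hr v (by omega))
        obtain ⟨t, ht, hvt⟩ := hT.cover v
        have htW : t ∈ trW T W := by
          unfold trW
          rw [mem_filter]
          refine ⟨ht, ?_⟩
          intro u hut
          by_cases huv : u = v
          · rw [huv]; exact hvW
          · exact hnb u ⟨fun h => huv h.symm, t, ht, hvt, hut⟩
        obtain ⟨D, hD, htD⟩ := hcov t htW
        obtain ⟨y, w', hw', hsupp, hDT, hDb, hDe, -⟩ := hL D hD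
        obtain ⟨-, -, hw'e⟩ := hcyc y w' hw'
        have hvw' : v ∉ w'.support := fun hvs => hdv (hsupp v hvs)
        obtain ⟨A, hA, Bs, hB, hAB2, hABb, hAe⟩ := axs hT w hw hwb
          (Pool.Agent.Helper39.KC.mem_support_of_wed w he₀ hv) D w' hw' hDT hDb hDe
          ⟨t, htD, hvt⟩ hvw'
        set z' := symmDiff (wed w) (symmDiff A Bs) with hz'
        have hz'm : ∀ e ∈ z', e ∈ Bs ∨ (e ∈ wed w ∧ e ∉ A) := by
          intro e he
          rw [hz', Finset.mem_symmDiff, Finset.mem_symmDiff] at he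
          by_cases h1 : e ∈ Bs
          · exact Or.inl h1
          · right
            rcases he with ⟨h2, h3⟩ | ⟨h2, h3⟩
            · refine ⟨h2, ?_⟩
              intro h4
              exact h3 (Or.inl ⟨h4, h1⟩)
            · rcases h2 with ⟨h4, _⟩ | ⟨h4, _⟩
              · exact absurd (hA h4) h3
              · exact absurd h4 h1
        have hnear : ∀ e ∈ Bs, ∀ u ∈ e, u ∈ M := fun e he u hu =>
          hsupp u (Pool.Agent.Helper39.KC.mem_support_of_wed w' (hB he) hu)
        have hz'b : Bounds T z' := by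
          refine ih (Nf z').card ?_ z' rfl ?_ (hev _ _ hw2 hAB2) ?_
          · rw [← hzn]
            refine Finset.card_lt_card ?_
            rw [Finset.ssubset_iff_of_subset]
            · refine ⟨e₀, mem_filter.2 ⟨hwz he₀, v, hv, hdv⟩, ?_⟩
              intro hc
              rw [mem_filter] at hc
              rcases hz'm e₀ hc.1 with h1 | h1
              · exact hdv (hnear e₀ h1 v hv)
              · exact h1.2 (hAe e₀ he₀ hv)
            · intro e he
              rw [mem_filter] at he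
              obtain ⟨he1, u, hu, hdu⟩ := he
              rcases hz'm e he1 with h1 | h1
              · exact absurd (hnear e h1 u hu) hdu
              · exact mem_filter.2 ⟨hwz h1.1, u, hu, hdu⟩
          · intro e he
            rcases hz'm e he with h1 | h1
            · exact hw'e (hB h1)
            · exact hwe h1.1
          · intro e he u hu hdu
            rcases hz'm e he with h1 | h1
            · exact absurd (hnear e h1 u hu) hdu
            · exact hzW e (hwz h1.1) u hu hdu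
        apply hwb
        have h1 := Pool.Agent.Helper28.KC.bounds_symmDiff hadd hz'b hABb
        rw [hz', symmDiff_symmDiff_cancel_right] at h1
        exact h1
      · push Not at hfar
        exact hwb (hBB (wed w) hwe hw2 hfar)
  intro z hz hz2 hzW
  exact key _ z rfl hz hz2 hzW

/-- cycles in a connected stuck set bound -/
theorem mws (hT : Surf T) {W : Finset V} (hS : Stk T W) {x : V} (hH : HubIn T x)
    (hnear : ∀ y, (sk T).dist x y ≤ 1 → y ∉ W) : ∀ z ⊆ edW T W, Even2 z → Bounds T z := by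
  intro z hz hzE
  obtain ⟨ev1, -, -, -, -, ev6⟩ := ev V T hT
  have hxW : x ∉ W := hnear x (by simp)
  obtain ⟨a, ha⟩ := hS.ne
  obtain ⟨p⟩ := hT.conn.preconnected a x
  obtain ⟨x', u, hx', hu, hxu⟩ := Pool.Agent.Helper59.KI.exists_cross W p ha hxW
  obtain ⟨uh1, uh2, uh3, uh4⟩ := uh V T W hT hS
  obtain ⟨h, hh, h7, huh⟩ := uh2 x' hx' u hu hxu
  have huN : u ∈ NK T h := by
    rw [NK, Finset.mem_filter]
    exact ⟨Finset.mem_univ _, h, SimpleGraph.Reachable.refl _, h7, huh⟩
  obtain ⟨mk1, ⟨mk2, -⟩, mk3, -, -, mk4⟩ := mk V T W h hT hS h7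
  obtain ⟨M, hM, hI⟩ := hH h h7
  obtain ⟨L, hL, hN⟩ := hI (mK T W h) mk4 mk3 (by
    intro e he v hv
    obtain ⟨x1, u1, rfl, h1, h2, h3, h4, h5⟩ := mk1 e he
    rcases Finset.mem_insert.mp hv with rfl | hv
    · exact hM v h5 v (by rw [SimpleGraph.dist_self]; omega)
    · rw [Finset.mem_singleton] at hv
      subst hv
      have h6 : (sk T).dist x1 v = 1 := SimpleGraph.dist_eq_one_iff_adj.mpr h4
      exact hM x1 h5 v (by omega))
  have hSub : L.foldr symmDiff ∅ ⊆ T := foldr_sub L (fun D hD => by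
    obtain ⟨_, _, _, _, hd, _⟩ := hN D hD
    exact hd)
  obtain ⟨HU, hbd⟩ := scs hT hS h7 hh hu huh.symm huN ⟨_, hSub, hL⟩
  have hX : symmDiff (symmDiff (trW T W) (Db T W h)) (L.foldr symmDiff ∅) ⊆ T := by
    intro t ht
    rw [Finset.mem_symmDiff, Finset.mem_symmDiff] at ht
    rcases ht with ⟨⟨h1, -⟩ | ⟨h1, -⟩, -⟩ | ⟨h1, -⟩
    · exact (Finset.mem_filter.mp h1).1
    · exact (Finset.mem_filter.mp h1).1
    · exact hSub h1
  have hbX : bd T (symmDiff (symmDiff (trW T W) (Db T W h)) (L.foldr symmDiff ∅)) = ∅ := by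
    rw [ev1, ev1, hL, hbd, mk2, symmDiff_symmDiff_cancel_left, symmDiff_self]
    rfl
  rcases ev6 _ hX hbX with h0 | h0
  · refine cas hT hM ?_ HU hN ?_ z ?_ hzE ?_
    · intro z' hz' hz2 hz3
      obtain ⟨L', hL', hN'⟩ := hI z' hz' hz2 hz3
      exact ⟨_, foldr_sub L' (fun D hD => by
        obtain ⟨_, _, _, _, hd, _⟩ := hN' D hD
        exact hd), hL'⟩
    · intro t ht
      by_contra hcon
      have hts : t ∉ L.foldr symmDiff ∅ := fun h' =>
        hcon (Pool.Agent.Helper59.KI.mem_foldr L t h')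
      have htD : t ∉ Db T W h := by
        intro h'
        have h1 := (Finset.mem_filter.mp h').2.1
        have h2 := (Finset.mem_filter.mp ht).2
        rw [Finset.inter_eq_left.mpr h2, hT.card t (Finset.mem_filter.mp ht).1] at h1
        omega
      have : t ∈ symmDiff (symmDiff (trW T W) (Db T W h)) (L.foldr symmDiff ∅) := by
        rw [Finset.mem_symmDiff, Finset.mem_symmDiff]
        exact Or.inl ⟨Or.inl ⟨ht, htD⟩, hts⟩
      rw [h0] at this
      exact absurd this (Finset.notMem_empty _)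
    · intro e he
      exact (Finset.mem_filter.mp (hz he)).1
    · intro e he v hv _
      exact (Finset.mem_filter.mp (hz he)).2 hv
  · exfalso
    obtain ⟨t, ht, hxt⟩ := hT.cover x
    have hno : ∀ v ∈ t, v ∉ W := by
      intro v hv
      apply hnear
      by_cases hvx : x = v
      · subst hvx; simp
      · have : (sk T).Adj x v := ⟨hvx, t, ht, hxt, hv⟩
        rw [SimpleGraph.dist_eq_one_iff_adj.mpr this]
    have ht1 : t ∉ trW T W := by
      intro h'
      exact hno x hxt ((Finset.mem_filter.mp h').2 hxt)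
    have ht2 : t ∉ Db T W h := by
      intro h'
      have h1 := (Finset.mem_filter.mp h').2.1
      have : t ∩ W = ∅ := by
        rw [Finset.eq_empty_iff_forall_notMem]
        intro v hv
        exact hno v (Finset.mem_inter.mp hv).1 (Finset.mem_inter.mp hv).2
      rw [this] at h1
      simp at h1
    have ht3 : t ∈ symmDiff (symmDiff (trW T W) (Db T W h)) (L.foldr symmDiff ∅) := by
      rw [h0]; exact ht
    rw [Finset.mem_symmDiff, Finset.mem_symmDiff] at ht3
    rcases ht3 with ⟨⟨h1, -⟩ | ⟨h1, -⟩, -⟩ | ⟨h1, -⟩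
    · exact ht1 h1
    · exact ht2 h1
    · obtain ⟨D, hDL, htD⟩ := Pool.Agent.Helper59.KI.mem_foldr L t h1
      obtain ⟨_, _, _, _, _, _, _, hxD⟩ := hN D hDL
      exact hxD t htD hxt

end Pool.Agent.Helper94.KC.TW
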