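import Pool.Agent.Helper94.KC.TW.Ess

/-!
# Project KC (MP_bf413e_co), part TW: inessential clusters of hubs, two flat patches
-/

set_option autoImplicit false

namespace Pool.Agent.Helper94.KC.TW

open scoped Classical
open Finset
open Pool.Agent.Helper94.KC
open Pool.Agent.Helper30.KC
open Pool.Agent.Helper30.ML (Mac rs del)
open Pool.Agent.Helper29.KI (mem_edW edW_mono gr_mono pair_mem_ed gr_of_adj gr_adj_mem)
open Pool.Agent.Helper12.KC (core_conn)
open Pool.Agent.Helper4.KC (mem_hB)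

variable {V : Type} [Fintype V] {T : Finset (Finset V)}

/-- all components of a stuck set -/
theorem fws (hT : Surf T) {W : Finset V} {x : V} (hH : HubIn T x) (hcu : ConW T (univ \ W))
    (htwo : ∃ u u', u ∉ W ∧ u' ∉ W ∧ (sk T).Adj u u')
    (hstk : ∀ y ∈ W, (∃ u, u ∉ W ∧ (sk T).Adj y u) → 5 ≤ dR (sk T) W y)
    (hxW : ∀ y, (sk T).dist x y ≤ 1 → y ∉ W) :
    ∀ z ⊆ edW T W, Even2 z → ∃ D ⊆ trW T W, bd T D = z := by
  intro z hz hz2
  obtain ⟨u₀, u₀', hu₀, hu₀', huu⟩ := htwo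
  have hWne : W ≠ univ := by
    intro h
    exact hu₀ (h ▸ mem_univ u₀)
  by_contra hcon
  have hnb : ¬ Bounds T z := fun hb =>
    hcon (Pool.Agent.Helper30.KC.inn V T hT W hWne hcu z hz hb)
  have hzed : z ⊆ ed T := fun e he => (mem_edW.mp (hz he)).1
  obtain ⟨x₁, w₁, hcyc, hw₁z, hw₁nb⟩ := cn2 V T hT z hzed hz2 hnb
  have hedges : ∀ e ∈ w₁.edges, e ∈ (gr (edW T W)).edgeSet := by
    intro e he
    have hadj := w₁.edges_subset_edgeSet he
    have hmem : e.toFinset ∈ wed w₁ := by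
      simp only [wed, List.mem_toFinset, List.mem_map]
      exact ⟨e, he, rfl⟩
    induction e using Sym2.ind with
    | _ u v =>
      rw [SimpleGraph.mem_edgeSet] at hadj ⊢
      refine ⟨hadj.1, ?_⟩
      have := hz (hw₁z hmem)
      rwa [Sym2.toFinset_mk_eq] at this
  set p₁ := w₁.transfer (gr (edW T W)) hedges with hp₁
  have hsupp : p₁.support = w₁.support := SimpleGraph.Walk.support_transfer _ _
  have hreach : ∀ v ∈ w₁.support, (gr (edW T W)).Reachable x₁ v := by
    intro v hv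
    rw [← hsupp] at hv
    exact ⟨p₁.takeUntil v hv⟩
  have hvW : ∀ v ∈ w₁.support, v ∈ W := by
    intro v hv
    obtain ⟨e, he, hve⟩ : ∃ e ∈ w₁.edges, v ∈ e := by
      have hnn : ¬ w₁.Nil := hcyc.not_nil
      exact (SimpleGraph.Walk.mem_support_iff_exists_mem_edges_of_not_nil hnn).mp hv
    have := hedges e he
    induction e using Sym2.ind with
    | _ u u' =>
      rw [SimpleGraph.mem_edgeSet] at this
      have h2 := gr_adj_mem this
      rcases Sym2.mem_iff.mp hve with rfl | rfl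
      · exact h2.1
      · exact h2.2
  set W₁ : Finset V := W.filter (fun v => (gr (edW T W)).Reachable x₁ v) with hW₁
  have hmemW₁ : ∀ v, v ∈ W₁ ↔ v ∈ W ∧ (gr (edW T W)).Reachable x₁ v := by
    intro v; simp [hW₁]
  have hW₁W : W₁ ⊆ W := Finset.filter_subset _ _
  have hx₁ : x₁ ∈ W₁ := (hmemW₁ x₁).mpr ⟨hvW x₁ w₁.start_mem_support, SimpleGraph.Reachable.refl _⟩
  have hstep : ∀ a c, a ∈ W₁ → c ∈ W → (sk T).Adj a c → c ∈ W₁ := by
    intro a c ha hc hac
    have ha' := (hmemW₁ a).mp ha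
    exact (hmemW₁ c).mpr ⟨hc, ha'.2.trans (gr_of_adj hac ha'.1 hc).reachable⟩
  have hskadj : ∀ a c, (gr (edW T W)).Adj a c → (sk T).Adj a c := by
    intro a c hac
    have h1 := (mem_edW.mp hac.2).1
    simp only [ed, mem_filter, mem_univ, true_and] at h1
    obtain ⟨_, t, ht, hsub⟩ := h1
    exact ⟨hac.1, t, ht, hsub (by simp), hsub (by simp)⟩
  have hwalk : ∀ a b (p : (gr (edW T W)).Walk a b), a ∈ W₁ → (gr (edW T W₁)).Reachable a b := by
    intro a b p
    induction p with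
    | nil => intro _; exact SimpleGraph.Reachable.refl _
    | @cons a c b hac p ih =>
      intro ha
      have hc : c ∈ W₁ := hstep a c ha (gr_adj_mem hac).2 (hskadj a c hac)
      exact (gr_of_adj (hskadj a c hac) ha hc).reachable.trans (ih hc)
  have hcw : ConW T W₁ := by
    intro u hu v hv
    obtain ⟨p⟩ := ((hmemW₁ u).mp hu).2.symm.trans ((hmemW₁ v).mp hv).2
    exact hwalk u v p hu
  have hout : ∀ v b (p : (sk T).Walk v b), b ∉ W → v ∉ W₁ →
      ∃ u, u ∉ W ∧ (gr (edW T (univ \ W₁))).Reachable v u := by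
    intro v b p
    induction p with
    | nil => intro hb _; exact ⟨_, hb, SimpleGraph.Reachable.refl _⟩
    | @cons v c b hvc p ih =>
      intro hb hv
      by_cases hvW' : v ∈ W
      · have hc : c ∉ W₁ := by
          intro hc
          exact hv (hstep c v hc hvW' hvc.symm)
        obtain ⟨u, hu, hr⟩ := ih hb hc
        exact ⟨u, hu, (gr_of_adj hvc (by simp [hv]) (by simp [hc])).reachable.trans hr⟩
      · exact ⟨v, hvW', SimpleGraph.Reachable.refl _⟩
  have hUU : (univ \ W : Finset V) ⊆ univ \ W₁ :=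
    Finset.sdiff_subset_sdiff (Finset.Subset.refl _) hW₁W
  have hcu₁ : ConW T (univ \ W₁) := by
    intro v hv v' hv'
    simp only [mem_sdiff, mem_univ, true_and] at hv hv'
    obtain ⟨p⟩ := hT.conn.preconnected v u₀
    obtain ⟨p'⟩ := hT.conn.preconnected v' u₀
    obtain ⟨u, hu, hr⟩ := hout v u₀ p hu₀ hv
    obtain ⟨u', hu', hr'⟩ := hout v' u₀ p' hu₀ hv'
    have h3 := (hcu u (by simp [hu]) u' (by simp [hu'])).mono (gr_mono (edW_mono hUU))
    exact hr.trans (h3.trans hr'.symm)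
  have hStk : Stk T W₁ := by
    refine ⟨⟨x₁, hx₁⟩, hcw, hcu₁, ⟨u₀, u₀', fun h => hu₀ (hW₁W h), fun h => hu₀' (hW₁W h), huu⟩, ?_⟩
    rintro y hy ⟨u, hu, hyu⟩
    have huW : u ∉ W := fun h => hu (hstep y u hy h hyu)
    refine (hstk y (hW₁W hy) ⟨u, huW, hyu⟩).trans (le_of_eq ?_)
    unfold dR
    congr 1
    ext c
    simp only [mem_filter]
    constructor
    · rintro ⟨hc, hyc⟩
      exact ⟨hstep y c hy hc hyc, hyc⟩
    · rintro ⟨hc, hyc⟩
      exact ⟨hW₁W hc, hyc⟩
  have hev := (ev V T hT).2.2.2.1 x₁ w₁ hcyc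
  refine hw₁nb (mws hT hStk hH (fun y hy h => hxW y hy (hW₁W h)) (wed w₁) ?_ hev.1)
  intro e he
  refine mem_edW.mpr ⟨hev.2.2 he, ?_⟩
  simp only [wed, List.mem_toFinset, List.mem_map] at he
  obtain ⟨e', he', rfl⟩ := he
  intro v hv
  have hv' : v ∈ w₁.support := by
    induction e' using Sym2.ind with
    | _ u u' =>
      rw [Sym2.toFinset_mk_eq] at hv
      simp only [mem_insert, mem_singleton] at hv
      rcases hv with rfl | rfl
      · exact w₁.fst_mem_support_of_mem_edges he'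
      · exact w₁.snd_mem_support_of_mem_edges he'
  exact (hmemW₁ v).mpr ⟨hvW v hv', hreach v hv'⟩

/-- the complement of a patch, for all subgraphs -/
theorem dpe (hS : Surf T) (i : ℤ × ℤ → V) (hi : Patch (sk T) i) (hH : HubIn T (i (0, 0)))
    (hhub : ∀ h, 7 ≤ dg T h → 1 < (sk T).dist (i (0, 0)) h)
    (G : SimpleGraph V) (hG : G ≤ sk T) :
    AllEq (rs G ((univ \ core i : Finset V) : Set V)) := by
  have h00 : i (0, 0) ∈ core i := by
    unfold core
    exact mem_image_of_mem _ ((mem_hB _ _).2 (by simp [hn]))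
  have h10 : i (1, 0) ∈ core i := by
    unfold core
    exact mem_image_of_mem _ ((mem_hB _ _).2 (by simp [hn]))
  obtain ⟨R, W, hRW, hdis, hAll, hconU, hstk⟩ :=
    dws Pool.Agent.Helper30.ML.d4 V T hS (core i) ⟨_, h00⟩ (core_conn T i hi)
  have hx0 : i (0, 0) ∉ W := fun h => disjoint_left.mp hdis h h00
  have hu0 : i (1, 0) ∉ W := fun h => disjoint_left.mp hdis h h10
  have hadj : (sk T).Adj (i (0, 0)) (i (1, 0)) :=
    (hi.nb (0, 0) (by simp [hn]) _).2 ⟨(1, 0), by simp [hn], rfl⟩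
  have hbm := bm V T hS W (i (0, 0)) (i (1, 0)) 0 hstk hx0 hu0 hadj
    (fun h h7 => by have := hhub h h7; omega)
  have hfw := fws hS hH hconU ⟨_, _, hx0, hu0, hadj⟩ hstk (fun y hy => hbm y (by omega))
  have hmacW : Mac (rs (sk T) (W : Set V)) := Pool.Agent.Helper30.ML.br V T hS W hfw
  have hmacR : Mac (rs G (R : Set V)) := by
    refine Pool.Agent.Helper30.ML.su V _ _ ?_ hmacW
    intro a b hab
    exact ⟨hG hab.1, hRW hab.2.1, hRW hab.2.2⟩
  exact hAll G hG (Pool.Agent.Helper30.ML.meyniel V _ hmacR)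

/-- in a patch the hubs are far from the centre -/
theorem patch_hub (hS : Surf T) {i : ℤ × ℤ → V} (hi : Patch (sk T) i) :
    ∀ h, 7 ≤ dg T h → 1 < (sk T).dist (i (0, 0)) h := by
  intro h h7
  by_contra hcon
  -- `h = i p` with `hn p ≤ 1`
  obtain ⟨p, hp, rfl⟩ : ∃ p, hn p ≤ 1 ∧ i p = h := by
    rcases (by omega : (sk T).dist (i (0, 0)) h = 0 ∨ (sk T).dist (i (0, 0)) h = 1) with h0 | h1
    · exact ⟨(0, 0), by simp [hn], (hS.conn.dist_eq_zero_iff).1 h0⟩
    · obtain ⟨q, hq, hqi⟩ := (hi.nb (0, 0) (by simp [hn]) h).1 (SimpleGraph.dist_eq_one_iff_adj.1 h1)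
      refine ⟨q, ?_, hqi⟩
      have : q - (0, 0) = q := by
        ext <;> simp
      rw [this] at hq
      omega
  have h1 : dg T (i p) ≤ 6 := by
    unfold dg dR
    have h2 : univ.filter (fun y => (sk T).Adj (i p) y) ⊆
        (({(1, 0), (0, 1), (-1, 1), (-1, 0), (0, -1), (1, -1)} : Finset (ℤ × ℤ)).image
          (fun d => i (p + d))) := by
      intro y hy
      rw [mem_filter] at hy
      obtain ⟨q, hq, rfl⟩ := (hi.nb p (by omega) y).1 hy.2
      rw [mem_image]
      refine ⟨q - p, ?_, by rw [add_sub_cancel]⟩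
      generalize q - p = d at hq ⊢
      obtain ⟨a, b⟩ := d
      unfold hn at hq
      simp only [mem_insert, mem_singleton, Prod.mk.injEq]
      omega
    refine le_trans (card_le_card h2) (le_trans card_image_le ?_)
    decide
  omega

/-- Theorem: inessential clusters of hubs and two flat patches -/
theorem ti_star (hS : Surf T) (i₁ i₂ : ℤ × ℤ → V) (p1 : Patch (sk T) i₁) (p2 : Patch (sk T) i₂)
    (hd : ∀ p q, hn p ≤ 6 → hn q ≤ 6 → i₁ p ≠ i₂ q) (h1 : HubIn T (i₁ (0, 0)))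
    (h2 : HubIn T (i₂ (0, 0))) : ∀ G ≤ sk T, AllEq G := by
  intro G hG
  have e1 := dpe hS i₁ p1 h1 (patch_hub hS p1) G hG
  have e2 := dpe hS i₂ p2 h2 (patch_hub hS p2) G hG
  exact tas lls G i₁ i₂ (p1.sub hG) (p2.sub hG) hd e1 e2

end Pool.Agent.Helper94.KC.TW
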