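import Pool.Agent.Helper94.KC.TW.Main
import Pool.Agent.Helper94.KC.TW.Ti

/-!
# Project KC (MP_bf413e_co), part TW: hubs in discs; hubs in balls, linear bound
-/

set_option autoImplicit false

namespace Pool.Agent.Helper94.KC.TW

open scoped Classical
open Finset
open Pool.Agent.Helper94.KC
open Pool.Agent.Helper30.KC
open Pool.Agent.Helper96.KT (ew_mono dev_dist)
open Pool.Agent.Helper30.ML (Mac rs del)

variable {V : Type} [Fintype V] {T : Finset (Finset V)}

/-- the main theorem: the hubs are far from the point `x` of the shortest cycle, and their clusters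
are inessential -/
theorem main_gen (hT : Surf T) (hEW : EW T 42600) {x₀ : V}
    {w : (sk T).Walk x₀ x₀} (hw : Shortest T w) {x : V} (hx : x ∈ w.support)
    (hhub : ∀ h, 7 ≤ dg T h → 1330 < (sk T).dist x h)
    (hH : ∀ y ∈ w.support, (sk T).dist x y ≤ 644 → HubIn T y) : ∀ G ≤ sk T, AllEq G := by
  have hlen : 42600 ≤ w.length := by
    by_contra h
    obtain ⟨D, hD⟩ := hEW x₀ w hw.cyc (by omega)
    exact hw.nb ⟨D, hD.sub, hD.bdy⟩
  have hE : hex T x (2 * 665) ≤ 0 := by
    unfold hex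
    have h0 : univ.filter (fun v => 7 ≤ dg T v ∧ (sk T).dist x v ≤ 2 * 665) = ∅ := by
      rw [Finset.filter_eq_empty_iff]
      rintro v - ⟨h7, hd⟩
      have := hhub v h7
      omega
    rw [h0, Finset.sum_empty]
  have hlow := low_le hT hEW hw hx 0 665 (by omega) (by omega) hE
  have hball := fun h K => Pool.Agent.Helper25.KC.ball_card sh hT hw h K
  set A := w.support.toFinset.filter (fun v => (sk T).dist x v ≤ 644) with hA
  have hAc : 644 + 1 ≤ A.card := near_card hw.cyc hx 644 (by omega)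
  set B1 := (lo T x 665).biUnion
    (fun h => w.support.toFinset.filter (fun v => (sk T).dist h v ≤ 21)) with hB1
  have c1 : B1.card ≤ 595 := by
    refine le_trans (Finset.card_biUnion_le_card_mul _ _ _ (fun h _ => hball h 21)) ?_
    have := Nat.mul_le_mul_right (4 * 21 + 1) hlow
    omega
  -- the points of `A` outside `B1` are good
  have hgood : ∀ a ∈ A, a ∉ B1 → a ∈ w.support ∧ (∀ v, (sk T).dist a v ≤ 21 → dg T v = 6) ∧
      HubIn T a := by
    intro a ha hnot
    rw [hA, Finset.mem_filter, List.mem_toFinset] at ha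
    have hhub' : ∀ h, 7 ≤ dg T h → 21 < (sk T).dist a h := by
      intro h h7
      have h1 := hT.conn.dist_triangle (u := x) (v := a) (w := h)
      have h2 := hhub h h7
      omega
    refine ⟨ha.1, ?_, hH a ha.1 ha.2⟩
    intro v hv
    have h1 : ¬ 7 ≤ dg T v := by
      intro h7
      have := hhub' v h7
      omega
    have h2 : ¬ dg T v ≤ 5 := by
      intro h5
      apply hnot
      rw [hB1, Finset.mem_biUnion]
      refine ⟨v, ?_, ?_⟩
      · refine Finset.mem_filter.2 ⟨?_, h5⟩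
        rw [mem_bl]
        have h1 := hT.conn.dist_triangle (u := x) (v := a) (w := v)
        omega
      · rw [Finset.mem_filter, List.mem_toFinset, SimpleGraph.dist_comm]
        exact ⟨ha.1, by omega⟩
    omega
  obtain ⟨a, haA, haB⟩ := Finset.exists_mem_notMem_of_card_lt_card
    (show B1.card < A.card by omega)
  set B3 := w.support.toFinset.filter (fun v => (sk T).dist a v ≤ 12) with hB3
  have c4 : (B1 ∪ B3).card < A.card := by
    have h3 := Finset.card_union_le B1 B3
    have h4 : B3.card ≤ 49 := hball a 12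
    omega
  obtain ⟨b, hbA, hbB⟩ := Finset.exists_mem_notMem_of_card_lt_card c4
  rw [Finset.mem_union, not_or] at hbB
  obtain ⟨ga1, ga2, ga3⟩ := hgood a haA haB
  obtain ⟨gb1, gb2, gb3⟩ := hgood b hbA hbB.1
  have hab : 12 < (sk T).dist a b := by
    by_contra hcon
    apply hbB.2
    rw [hB3, Finset.mem_filter, List.mem_toFinset]
    exact ⟨gb1, by omega⟩
  obtain ⟨f, hf0, hfD, hfP⟩ := good_patch hT hEW (by omega) hw ga1 (by omega) ga2
  obtain ⟨g, hg0, hgD, hgP⟩ := good_patch hT hEW (by omega) hw gb1 (by omega) gb2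
  refine ti_star hT f g hfP hgP ?_ (by rw [hf0]; exact ga3) (by rw [hg0]; exact gb3)
  intro p q hp hq h
  have h1 := dev_dist hT hfD (hn p) hp p rfl
  have h2 := dev_dist hT hgD (hn q) hq q rfl
  rw [hf0] at h1
  rw [hg0] at h2
  have h4 := hT.conn.dist_triangle (u := a) (v := f p) (w := b)
  rw [h, SimpleGraph.dist_comm (u := g q)] at h4
  rw [h] at h1
  omega

/-! ### discs -/

/-- a set of interior vertices of a disc is inessential -/
theorem ines_of_disc (hT : Surf T) {Δ zΔ : Finset (Finset V)} (hΔ : Disc T Δ zΔ)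
    (hne : zΔ.Nonempty) {M : Finset V} (hM : ∀ v ∈ M, ∀ t ∈ T, v ∈ t → t ∈ Δ) {x : V}
    (hx : ∀ t ∈ Δ, x ∉ t) : Ines T x M := by
  obtain ⟨ev1, ev2, ev3, ev4, ev5, ev6⟩ := ev V T hT
  obtain ⟨db1, -⟩ := db V T hT Δ zΔ hΔ hne
  have key : ∀ n : ℕ, ∀ z : Finset (Finset V), z.card = n → z ⊆ ed T → Even2 z →
      (∀ e ∈ z, ∀ v ∈ e, v ∈ M) →
      ∃ L : List (Finset (Finset V)), bd T (L.foldr symmDiff ∅) = z ∧ ∀ D ∈ L, PD T x M D := by
    intro n
    induction n using Nat.strong_induction_on with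
    | _ n ih =>
      intro z hzn hz hz2 hzM
      by_cases h0 : z = ∅
      · refine ⟨[], ?_, by simp⟩
        rw [h0, List.foldr_nil]
        unfold bd
        rw [Finset.filter_eq_empty_iff]
        intro e _ h
        simp at h
      obtain ⟨y, w', hw', hwz⟩ := cy V T hT z hz hz2 (Finset.nonempty_iff_ne_empty.2 h0)
      obtain ⟨hwe, hwc, hwT⟩ := ev4 y w' hw'
      have hwM : ∀ v ∈ w'.support, v ∈ M := by
        intro v hv
        have hnn : ¬ w'.Nil := hw'.not_nil
        obtain ⟨e, he, hve⟩ :=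
          (SimpleGraph.Walk.mem_support_iff_exists_mem_edges_of_not_nil hnn).mp hv
        refine hzM e.toFinset (hwz ?_) v (Sym2.mem_toFinset.2 hve)
        rw [Pool.Agent.Helper39.KC.mem_wed]
        exact ⟨e, he, rfl⟩
      have hwD : wed w' ⊆ ed Δ := by
        intro e he
        obtain ⟨-, hcard, t, ht, het⟩ := Finset.mem_filter.1 (hwT he)
        obtain ⟨a, ha⟩ := Finset.card_pos.1 (by omega : 0 < e.card)
        exact Finset.mem_filter.2 ⟨Finset.mem_univ _, hcard, t,
          hM a (hzM e (hwz he) a ha) t ht (het ha), het⟩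
      obtain ⟨D', hD', hDb⟩ := db1 (wed w') hwD hwe
      have hsub : symmDiff z (wed w') = z \ wed w' := by
        ext e
        rw [Finset.mem_symmDiff, Finset.mem_sdiff]
        constructor
        · rintro (h | h)
          · exact h
          · exact absurd (hwz h.1) h.2
        · intro h
          exact Or.inl h
      obtain ⟨L, hL, hLD⟩ := ih (symmDiff z (wed w')).card (by
        rw [← hzn, hsub]
        apply Finset.card_lt_card
        rw [Finset.ssubset_iff_of_subset Finset.sdiff_subset]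
        have hpos : 0 < (wed w').card := by
          rw [hwc]
          have := hw'.three_le_length
          omega
        obtain ⟨e, he⟩ := Finset.card_pos.1 hpos
        exact ⟨e, hwz he, fun h => (Finset.mem_sdiff.1 h).2 he⟩) _ rfl (by
          rw [hsub]
          exact Finset.sdiff_subset.trans hz) (ev2 _ _ hz2 hwe) (by
          intro e he
          rw [hsub] at he
          exact hzM e (Finset.mem_sdiff.1 he).1)
      refine ⟨D' :: L, ?_, ?_⟩
      · rw [List.foldr_cons, ev1, hDb, hL, symmDiff_comm z, symmDiff_symmDiff_cancel_left]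
      · intro D hD
        rcases List.mem_cons.1 hD with rfl | hD
        · refine ⟨y, w', hw', hwM, hD'.trans hΔ.sub, hDb, ?_, fun t ht => hx t (hD' ht)⟩
          intro z' hz' hz'2
          have hsub2 : ed D ⊆ ed Δ := by
            intro e he
            obtain ⟨h1, h2, t, ht, het⟩ := Finset.mem_filter.1 he
            exact Finset.mem_filter.2 ⟨h1, h2, t, hD' ht, het⟩
          obtain ⟨D'', h1, h2⟩ := db1 z' (hz'.trans hsub2) hz'2
          exact ⟨D'', h1.trans hΔ.sub, h2⟩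
        · exact hLD D hD
  intro z hz hz2 hzM
  exact key _ z rfl hz hz2 hzM

/-- hub clusters inside pairwise disjoint discs -/
theorem hubin_of_discs (hT : Surf T) (DD : Finset (Finset (Finset V)))
    (hD : ∀ Δ ∈ DD, ∃ z, z.Nonempty ∧ Disc T Δ z)
    (hdis : ∀ Δ ∈ DD, ∀ Δ' ∈ DD, Δ ≠ Δ' → Disjoint (vs Δ) (vs Δ'))
    (hh : ∀ h, 7 ≤ dg T h → ∀ v, (sk T).dist h v ≤ 2 → ∃ Δ ∈ DD, ∀ t ∈ T, v ∈ t → t ∈ Δ)
    {x : V} (hx : ∀ Δ ∈ DD, x ∉ vs Δ) : HubIn T x := by
  have mvs : ∀ (D : Finset (Finset V)) (v : V), v ∈ vs D ↔ ∃ t ∈ D, v ∈ t := by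
    intro D v
    simp [vs]
  -- adjacent vertices near hubs are in the same disc
  have hadj : ∀ u v, (sk T).Adj u v → ∀ Δ ∈ DD, (∀ t ∈ T, u ∈ t → t ∈ Δ) →
      (∃ Δ' ∈ DD, ∀ t ∈ T, v ∈ t → t ∈ Δ') → ∀ t ∈ T, v ∈ t → t ∈ Δ := by
    rintro u v ⟨hne, s, hs, hus, hvs⟩ Δ hΔ hu ⟨Δ', hΔ', hv⟩
    by_cases he : Δ = Δ'
    · rw [he]; exact hv
    · exfalso
      refine Finset.disjoint_left.1 (hdis Δ hΔ Δ' hΔ' he) ((mvs Δ u).2 ⟨s, hu s hs hus, hus⟩) ?_
      exact (mvs Δ' u).2 ⟨s, hv s hs hvs, hus⟩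
  intro h h7
  obtain ⟨Δ, hΔ, hΔh⟩ := hh h h7 h (by rw [SimpleGraph.dist_self]; omega)
  obtain ⟨zΔ, hne, hdisc⟩ := hD Δ hΔ
  -- all hubs of the cluster are in this disc
  have hcl : ∀ h', (HG T).Reachable h h' → 7 ≤ dg T h' ∧ ∀ t ∈ T, h' ∈ t → t ∈ Δ := by
    intro h' hr
    rw [SimpleGraph.reachable_iff_reflTransGen] at hr
    induction hr with
    | refl => exact ⟨h7, hΔh⟩
    | @tail p q _ hpq ih =>
      obtain ⟨hne', hp7, hq7, u, hpu, hqu⟩ := hpq
      refine ⟨hq7, ?_⟩
      have h1 : (sk T).dist p u = 1 := SimpleGraph.dist_eq_one_iff_adj.2 hpu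
      have hu := hadj p u hpu Δ hΔ ih.2 (hh p hp7 u (by omega))
      exact hadj u q hqu.symm Δ hΔ hu (hh q hq7 q (by rw [SimpleGraph.dist_self]; omega))
  refine ⟨univ.filter (fun v => ∀ t ∈ T, v ∈ t → t ∈ Δ), ?_, ?_⟩
  · intro h' hr v hv
    rw [Finset.mem_filter]
    refine ⟨Finset.mem_univ _, ?_⟩
    obtain ⟨h7', hin⟩ := hcl h' hr
    rcases (by omega : (sk T).dist h' v = 0 ∨ (sk T).dist h' v = 1 ∨ (sk T).dist h' v = 2)
      with h0 | h1 | h2
    · rw [← (hT.conn.dist_eq_zero_iff).1 h0]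
      exact hin
    · exact hadj h' v (SimpleGraph.dist_eq_one_iff_adj.1 h1) Δ hΔ hin (hh h' h7' v (by omega))
    · obtain ⟨u, huv, hu⟩ := pred hT (x := h') (v := v) (k := 1) h2
      have h3 := hadj h' u (SimpleGraph.dist_eq_one_iff_adj.1 hu) Δ hΔ hin
        (hh h' h7' u (by omega))
      exact hadj u v huv Δ hΔ h3 (hh h' h7' v (by omega))
  · refine ines_of_disc hT hdisc hne ?_ ?_
    · intro v hv
      exact (Finset.mem_filter.1 hv).2
    · intro t ht hxt
      exact hx Δ hΔ ((mvs Δ x).2 ⟨t, ht, hxt⟩)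

/-- Theorem B: hubs in disjoint discs, far from a point of the shortest cycle -/
theorem main_discs (hT : Surf T) (hEW : EW T 42600) (DD : Finset (Finset (Finset V)))
    (hD : ∀ Δ ∈ DD, ∃ z, z.Nonempty ∧ Disc T Δ z)
    (hdis : ∀ Δ ∈ DD, ∀ Δ' ∈ DD, Δ ≠ Δ' → Disjoint (vs Δ) (vs Δ'))
    (hh : ∀ h, 7 ≤ dg T h → ∀ v, (sk T).dist h v ≤ 2 → ∃ Δ ∈ DD, ∀ t ∈ T, v ∈ t → t ∈ Δ)
    {x₀ : V} {w : (sk T).Walk x₀ x₀} (hw : Shortest T w) {x : V} (hx : x ∈ w.support)
    (hfar : ∀ Δ ∈ DD, ∀ v ∈ vs Δ, 1330 < (sk T).dist x v) : ∀ G ≤ sk T, AllEq G := by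
  refine main_gen hT hEW hw hx ?_ ?_
  · intro h h7
    obtain ⟨Δ, hΔ, hin⟩ := hh h h7 h (by rw [SimpleGraph.dist_self]; omega)
    obtain ⟨t, ht, hht⟩ := hT.cover h
    refine hfar Δ hΔ h ?_
    rw [vs, Finset.mem_filter]
    exact ⟨Finset.mem_univ _, t, hin t ht hht, hht⟩
  · intro y _ hxy
    refine hubin_of_discs hT DD hD hdis hh ?_
    intro Δ hΔ hy
    have := hfar Δ hΔ y hy
    omega

/-- two flat patches outside disjoint discs which contain the hubs -/
theorem patches_discs (hT : Surf T) (DD : Finset (Finset (Finset V)))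
    (hD : ∀ Δ ∈ DD, ∃ z, z.Nonempty ∧ Disc T Δ z)
    (hdis : ∀ Δ ∈ DD, ∀ Δ' ∈ DD, Δ ≠ Δ' → Disjoint (vs Δ) (vs Δ'))
    (hh : ∀ h, 7 ≤ dg T h → ∀ v, (sk T).dist h v ≤ 2 → ∃ Δ ∈ DD, ∀ t ∈ T, v ∈ t → t ∈ Δ)
    (i₁ i₂ : ℤ × ℤ → V) (p1 : Patch (sk T) i₁) (p2 : Patch (sk T) i₂)
    (hd : ∀ p q, hn p ≤ 6 → hn q ≤ 6 → i₁ p ≠ i₂ q)
    (h1 : ∀ Δ ∈ DD, i₁ (0, 0) ∉ vs Δ) (h2 : ∀ Δ ∈ DD, i₂ (0, 0) ∉ vs Δ) :
    ∀ G ≤ sk T, AllEq G :=
  ti_star hT i₁ i₂ p1 p2 hd (hubin_of_discs hT DD hD hdis hh h1)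
    (hubin_of_discs hT DD hD hdis hh h2)

/-! ### clusters of small diameter -/

/-- a ball of small radius far from a point of the shortest cycle is inessential -/
theorem ines_of_ball (hT : Surf T) {ρ : ℕ} (hEW : EW T (2 * ρ + 6)) {x₀ : V}
    {w : (sk T).Walk x₀ x₀} (hw : Shortest T w) {x : V} (hx : x ∈ w.support) {h : V}
    (hxh : 2 * ρ + 4 < (sk T).dist x h) : Ines T x (bl T h (ρ + 2)) := by
  intro z hz hz2 hzM
  obtain ⟨L, hL, hN⟩ := bb V T hT h (ρ + 2) (by
    have : 2 * (ρ + 2) + 2 = 2 * ρ + 6 := by ring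
    rw [this]; exact hEW) z hz hz2 (fun e he v hv => mem_bl.1 (hzM e he v hv))
  refine ⟨L, hL, ?_⟩
  intro D hD
  obtain ⟨y, w', hw', hlen, hsup, hdisc⟩ := hN D hD
  have hne : (wed w').Nonempty := by
    rw [← Finset.card_pos, ((ev V T hT).2.2.2.1 y w' hw').2.1]
    have := hw'.three_le_length
    omega
  obtain ⟨db1, -⟩ := db V T hT D (wed w') hdisc hne
  refine ⟨y, w', hw', fun v hv => mem_bl.2 (hsup v hv), hdisc.sub, hdisc.bdy, ?_, ?_⟩
  · intro z' hz' hz'2
    obtain ⟨D'', h1, h2⟩ := db1 z' hz' hz'2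
    exact ⟨D'', h1.trans hdisc.sub, h2⟩
  · intro t ht hxt
    have hxs : x ∉ w'.support := by
      intro hxs
      have h1 := hsup x hxs
      rw [SimpleGraph.dist_comm] at h1
      omega
    obtain ⟨p, hp, hp2⟩ := ar V T hT x₀ w hw x hx D y w' hw' hdisc ⟨t, ht, hxt⟩ hxs
    have h1 := hsup p hp
    have h2 := hT.conn.dist_triangle (u := x) (v := p) (w := h)
    rw [SimpleGraph.dist_comm (u := p) (v := h)] at h2
    omega

/-- Theorem A: the hubs are in `m` balls of radius `r`; linear bound for the edge-width -/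
theorem main_lin (m r : ℕ) (hT : Surf T) (Z : Finset V) (hZc : Z.card ≤ m)
    (hZ : ∀ v, 7 ≤ dg T v → ∃ z ∈ Z, (sk T).dist z v ≤ r)
    (hEW : EW T (43000 * (m + 1) * (r + 1))) : ∀ G ≤ sk T, AllEq G := by
  intro G hG
  by_cases hb : ∀ z ⊆ ed T, Even2 z → Bounds T z
  · have h1 := Pool.Agent.Helper30.ML.br V T hT univ (by
      intro z hz hev
      have hz' : z ⊆ ed T := fun e he => (mem_filter.1 (hz he)).1
      obtain ⟨D, hD, hDz⟩ := hb z hz' hev
      refine ⟨D, fun s hs => mem_filter.2 ⟨hD hs, subset_univ s⟩, hDz⟩)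
    have h2 : rs (sk T) ((univ : Finset V) : Set V) = sk T := by
      ext a b
      simp [rs]
    rw [h2] at h1
    exact Pool.Agent.Helper30.ML.meyniel V G (Pool.Agent.Helper30.ML.su V _ _ hG h1)
  push Not at hb
  obtain ⟨x₀, w, hw, hcw⟩ := sz V T _ hT hEW hb
  have hc := hT.conn
  -- the graph of the centres
  let CG : SimpleGraph V :=
    { Adj := fun a b => a ≠ b ∧ a ∈ Z ∧ b ∈ Z ∧ (sk T).dist a b ≤ 2 * r + 2
      symm := ⟨fun a b h => ⟨h.1.symm, h.2.2.1, h.2.1, by
        rw [SimpleGraph.dist_comm]; exact h.2.2.2⟩⟩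
      loopless := ⟨fun a h => h.1 rfl⟩ }
  let kc : CG.ConnectedComponent → ℕ := fun c =>
    (Z.filter (fun z => CG.connectedComponentMk z = c)).card
  -- diameter of a component
  have hdiam : ∀ a b, a ∈ Z → CG.Reachable a b →
      (sk T).dist a b + (2 * r + 2) ≤ (2 * r + 2) * kc (CG.connectedComponentMk a) := by
    intro a b ha hr
    obtain ⟨q⟩ := hr
    let p := q.toPath
    have dw : ∀ a b (w : CG.Walk a b), (sk T).dist a b ≤ (2 * r + 2) * w.length := by
      intro a b w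
      induction w with
      | nil => simp
      | @cons u v w' hadj p ih =>
        have h2 := hc.dist_triangle (u := u) (v := v) (w := w')
        have h3 := hadj.2.2.2
        rw [SimpleGraph.Walk.length_cons, Nat.mul_add, Nat.mul_one]
        omega
    have cz : ∀ a b (w : CG.Walk a b), a ∈ Z → ∀ x ∈ w.support, x ∈ Z := by
      intro a b w
      induction w with
      | nil =>
        intro ha x hx
        rw [SimpleGraph.Walk.support_nil, List.mem_singleton] at hx
        rw [hx]; exact ha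
      | @cons u v w' hadj p ih =>
        intro ha x hx
        rw [SimpleGraph.Walk.support_cons, List.mem_cons] at hx
        rcases hx with rfl | hx
        · exact ha
        · exact ih hadj.2.2.1 x hx
    have h1 := dw a b (p : CG.Walk a b)
    have h2 : (p : CG.Walk a b).support.toFinset ⊆
        Z.filter (fun z => CG.connectedComponentMk z = CG.connectedComponentMk a) := by
      intro x hx
      rw [List.mem_toFinset] at hx
      rw [Finset.mem_filter]
      refine ⟨cz _ _ _ ha x hx, ?_⟩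
      rw [SimpleGraph.ConnectedComponent.eq]
      exact ((p : CG.Walk a b).takeUntil x hx).reachable.symm
    have h3 := card_le_card h2
    rw [List.toFinset_card_of_nodup p.2.support_nodup, SimpleGraph.Walk.length_support] at h3
    have h4 : (2 * r + 2) * ((p : CG.Walk a b).length + 1) ≤
        (2 * r + 2) * kc (CG.connectedComponentMk a) := Nat.mul_le_mul_left _ h3
    rw [Nat.mul_add, Nat.mul_one] at h4
    omega
  -- a chain of hubs gives a chain of centres
  have key : ∀ a b, (HG T).Walk a b → ∀ z ∈ Z, (sk T).dist z a ≤ r →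
      ∃ z' ∈ Z, (sk T).dist z' b ≤ r ∧ CG.Reachable z z' := by
    intro a b w
    induction w with
    | nil => intro z hz hd; exact ⟨z, hz, hd, SimpleGraph.Reachable.refl _⟩
    | @cons u v w' hadj p ih =>
      intro z hz hzu
      obtain ⟨z₁, hz₁, hzv⟩ := hZ v hadj.2.2.1
      have h2 := Pool.Agent.Helper77.KT.dist_le_two T hadj
      have h3 := hc.dist_triangle (u := z) (v := u) (w := v)
      have h4 := hc.dist_triangle (u := z) (v := v) (w := z₁)
      have h5 : (sk T).dist v z₁ = (sk T).dist z₁ v := SimpleGraph.dist_comm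
      have h1 : CG.Reachable z z₁ := by
        by_cases he : z = z₁
        · rw [he]
        · exact SimpleGraph.Adj.reachable ⟨he, hz, hz₁, by omega⟩
      obtain ⟨z', hz', hd, hr⟩ := ih z₁ hz₁ hzv
      exact ⟨z', hz', hd, h1.trans hr⟩
  -- choose `x`
  let Cs : Finset CG.ConnectedComponent := Z.image CG.connectedComponentMk
  have hrep : ∀ c : CG.ConnectedComponent, ∃ z, c ∈ Cs → z ∈ Z ∧ CG.connectedComponentMk z = c := by
    intro c
    by_cases hcc : c ∈ Cs
    · obtain ⟨z, hz, hzc⟩ := Finset.mem_image.1 hcc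
      exact ⟨z, fun _ => ⟨hz, hzc⟩⟩
    · exact ⟨x₀, fun h => absurd h hcc⟩
  choose rep hrep using hrep
  let Rc : CG.ConnectedComponent → ℕ := fun c => 3 * ((2 * r + 2) * kc c) + 1330
  have hball := fun h K => Pool.Agent.Helper25.KC.ball_card sh hT hw h K
  set B := Cs.biUnion (fun c => w.support.toFinset.filter
    (fun v => (sk T).dist (rep c) v ≤ Rc c)) with hB
  have hBc : B.card ≤ 24 * (r + 1) * m + 5321 * m := by
    have h1 : B.card ≤ ∑ c ∈ Cs, (4 * Rc c + 1) :=
      le_trans Finset.card_biUnion_le (Finset.sum_le_sum (fun c _ => hball (rep c) (Rc c)))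
    have h2 : ∑ c ∈ Cs, (4 * Rc c + 1) = 24 * (r + 1) * (∑ c ∈ Cs, kc c) + 5321 * Cs.card := by
      rw [Finset.mul_sum, Finset.card_eq_sum_ones, Finset.mul_sum, ← Finset.sum_add_distrib]
      apply Finset.sum_congr rfl
      intro c _
      show 4 * (3 * ((2 * r + 2) * kc c) + 1330) + 1 = _
      ring
    have h3 : ∑ c ∈ Cs, kc c = Z.card :=
      (Finset.card_eq_sum_card_fiberwise (fun z hz => Finset.mem_image_of_mem _ hz)).symm
    have h4 : Cs.card ≤ Z.card := Finset.card_image_le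
    rw [h2, h3] at h1
    have h5 : 24 * (r + 1) * Z.card ≤ 24 * (r + 1) * m := Nat.mul_le_mul_left _ hZc
    omega
  have e0 : 43000 * (m + 1) * (r + 1) = 43000 * (m * (r + 1)) + 43000 * (r + 1) := by ring
  have e1 : 24 * (r + 1) * m = 24 * (m * (r + 1)) := by ring
  have e2 : m ≤ m * (r + 1) := Nat.le_mul_of_pos_right m (by omega)
  have hcard := Pool.Agent.Helper25.KC.supp_card hw.cyc
  obtain ⟨x, hxs, hxB⟩ := Finset.exists_mem_notMem_of_card_lt_card
    (show B.card < w.support.toFinset.card by rw [hcard]; omega)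
  have hxw : x ∈ w.support := List.mem_toFinset.1 hxs
  have hxR : ∀ c ∈ Cs, Rc c < (sk T).dist x (rep c) := by
    intro c hcc
    by_contra hcon
    apply hxB
    rw [hB, Finset.mem_biUnion]
    refine ⟨c, hcc, ?_⟩
    rw [Finset.mem_filter, SimpleGraph.dist_comm]
    exact ⟨hxs, by omega⟩
  -- the clusters
  have hcl : ∀ h, 7 ≤ dg T h → ∃ ρ, ρ ≤ (2 * r + 2) * m ∧ 2 * ρ + 1330 < (sk T).dist x h ∧
      ∀ h', (HG T).Reachable h h' → (sk T).dist h h' ≤ ρ := by
    intro h h7
    obtain ⟨z, hz, hzh⟩ := hZ h h7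
    set c := CG.connectedComponentMk z with hcdef
    have hcC : c ∈ Cs := Finset.mem_image_of_mem _ hz
    obtain ⟨hr1, hr2⟩ := hrep c hcC
    have hk1 : kc c ≤ m := (Finset.card_le_card (Finset.filter_subset _ _)).trans hZc
    refine ⟨(2 * r + 2) * kc c, Nat.mul_le_mul_left _ hk1, ?_, ?_⟩
    · have h1 := hxR c hcC
      have h2 : CG.Reachable z (rep c) := by
        rw [← SimpleGraph.ConnectedComponent.eq, hr2]
      have h3 := hdiam z (rep c) hz h2
      rw [← hcdef] at h3
      have h4 := hc.dist_triangle (u := x) (v := h) (w := rep c)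
      have h5 := hc.dist_triangle (u := h) (v := z) (w := rep c)
      have h6 : (sk T).dist h z = (sk T).dist z h := SimpleGraph.dist_comm
      have h7 : Rc c = 3 * ((2 * r + 2) * kc c) + 1330 := rfl
      omega
    · intro h' hr
      obtain ⟨q⟩ := hr
      obtain ⟨z', hz', hd', hzz⟩ := key h h' q z hz hzh
      have h3 := hdiam z z' hz hzz
      rw [← hcdef] at h3
      have h4 := hc.dist_triangle (u := h) (v := z) (w := h')
      have h5 := hc.dist_triangle (u := z) (v := z') (w := h')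
      have h6 : (sk T).dist h z = (sk T).dist z h := SimpleGraph.dist_comm
      omega
  have e3 : (2 * r + 2) * m = 2 * (m * (r + 1)) := by ring
  have e4 : ∀ ρ, ρ ≤ (2 * r + 2) * m → 2 * ρ + 6 ≤ 43000 * (m + 1) * (r + 1) := by
    intro ρ hρ
    omega
  have e6 : 1 ≤ (m + 1) * (r + 1) := Nat.mul_pos (Nat.succ_pos m) (Nat.succ_pos r)
  have e5 : 42600 ≤ 43000 * (m + 1) * (r + 1) := by
    calc 42600 ≤ 43000 * 1 := by norm_num
      _ ≤ 43000 * ((m + 1) * (r + 1)) := Nat.mul_le_mul_left _ e6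
      _ = 43000 * (m + 1) * (r + 1) := by ring
  refine main_gen hT (ew_mono hEW e5) hw hxw ?_ ?_ G hG
  · intro h h7
    obtain ⟨ρ, _, h2, _⟩ := hcl h h7
    omega
  · intro y hy hxy h h7
    obtain ⟨ρ, h1, h2, h3⟩ := hcl h h7
    refine ⟨bl T h (ρ + 2), ?_, ?_⟩
    · intro h' hr v hv
      rw [mem_bl]
      have h4 := h3 h' hr
      have h5 := hc.dist_triangle (u := h) (v := h') (w := v)
      omega
    · refine ines_of_ball hT (ew_mono hEW (e4 ρ h1)) hw hy ?_
      have h4 := hc.dist_triangle (u := x) (v := y) (w := h)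
      omega

end Pool.Agent.Helper94.KC.TW
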