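import Pool.Agent.Helper36.KC.RK
import Pool.Agent.Helper77.KC.CN
import Pool.Agent.Helper23.KC.CO
import Pool.Agent.Helper30.KC.FinT

/-!
# Project KC (MP_bf413e_co), part TW: growth of balls
-/

set_option autoImplicit false

namespace Pool.Agent.Helper94.KC.TW

open scoped Classical
open Finset
open Pool.Agent.Helper94.KC
open Pool.Agent.Helper30.KC
open Pool.Agent.Helper36.KC

variable {V : Type} [Fintype V] {T : Finset (Finset V)}

/-- rank count: connected complexes have Euler characteristic at most 1 -/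
theorem rk_le (hT : Surf T) (W : Finset V) (F D : Finset (Finset V)) (hW : W.Nonempty)
    (hF : F ⊆ ed T) (hFW : ∀ e ∈ F, e ⊆ W) (hDT : D ⊆ T)
    (hDF : ∀ t ∈ D, ∀ e ∈ ed T, e ⊆ t → e ∈ F)
    (hcon : ∀ u ∈ W, ∀ v ∈ W, (gr F).Reachable u v)
    (hinj : ∀ D' ⊆ D, bd T D' = ∅ → D' = ∅) : W.card + D.card ≤ F.card + 1 := by
  have hker := ker_one hW hF hFW hcon
  have e1 := LinearMap.finrank_range_add_finrank_ker (AM W F).transpose.mulVecLin
  have e2 := LinearMap.finrank_range_add_finrank_ker (AM W F).mulVecLin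
  have e3 : Module.finrank (ZMod 2) (LinearMap.range (AM W F).transpose.mulVecLin) =
      Module.finrank (ZMod 2) (LinearMap.range (AM W F).mulVecLin) :=
    Matrix.rank_transpose (AM W F)
  have e4 := LinearMap.finrank_range_add_finrank_ker (BM F D).mulVecLin
  rw [hker, e3, Module.finrank_fintype_fun_eq_card, Fintype.card_coe] at e1
  rw [Module.finrank_fintype_fun_eq_card, Fintype.card_coe] at e2 e4
  have hk : LinearMap.ker (BM F D).mulVecLin = ⊥ := by
    rw [LinearMap.ker_eq_bot']
    intro y hy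
    rw [Matrix.mulVecLin_apply] at hy
    have h1 : bd T (uni y) = ∅ := by
      refine (bd_iff hF hDF (uni_sub y) (Finset.empty_subset F)).2 ?_
      rw [ind_uni, hy]
      funext e
      unfold ind
      rw [if_neg (Finset.notMem_empty _)]
      rfl
    have h2 := hinj (uni y) (uni_sub y) h1
    have h3 := ind_uni y
    rw [h2] at h3
    rw [← h3]
    funext e
    unfold ind
    rw [if_neg (Finset.notMem_empty _)]
    rfl
  rw [hk, finrank_bot] at e4
  have hle : LinearMap.range (BM F D).mulVecLin ≤ LinearMap.ker (AM W F).mulVecLin := by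
    rintro x ⟨y, rfl⟩
    rw [LinearMap.mem_ker, Matrix.mulVecLin_apply, Matrix.mulVecLin_apply,
      Matrix.mulVec_mulVec, mul_zero_AB hT hF hDT hDF, Matrix.zero_mulVec]
  have h5 := Submodule.finrank_mono hle
  omega

/-- Euler characteristic at most 1, and at most 0 if some even set does not bound inside -/
theorem chi_le (hT : Surf T) (W : Finset V) (F D : Finset (Finset V)) (hW : W.Nonempty)
    (hF : F ⊆ ed T) (hFW : ∀ e ∈ F, e ⊆ W) (hDT : D ⊆ T) (hDne : D ≠ T)
    (hDF : ∀ t ∈ D, ∀ e ∈ ed T, e ⊆ t → e ∈ F)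
    (hcon : ∀ u ∈ W, ∀ v ∈ W, (gr F).Reachable u v) :
    W.card + D.card ≤ F.card + 1 ∧
    ((∃ z ⊆ F, Even2 z ∧ ∀ D' ⊆ D, bd T D' ≠ z) → W.card + D.card ≤ F.card) := by
  have hinj : ∀ D' ⊆ D, bd T D' = ∅ → D' = ∅ := by
    intro D' hD' hb
    rcases (ev V T hT).2.2.2.2.2 D' (hD'.trans hDT) hb with h | h
    · exact h
    · exfalso
      apply hDne
      apply Finset.Subset.antisymm hDT
      rw [← h]
      exact hD'
  have h1 := rk_le hT W F D hW hF hFW hDT hDF hcon hinj
  refine ⟨h1, ?_⟩
  rintro ⟨z, hz, hev, hno⟩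
  by_contra hc
  obtain ⟨D', hD', hb⟩ := (Pool.Agent.Helper30.KC.rk V T hT W F D hW hF hFW hDT hDF hcon).2 (by omega) hinj z hz hev
  exact hno D' hD' hb

/-- the triangles which meet `B` -/
noncomputable def TB (T : Finset (Finset V)) (B : Finset V) : Finset (Finset V) :=
  T.filter (fun t => (t ∩ B).Nonempty)

/-- the edges of the triangles which meet `B` -/
noncomputable def FB (T : Finset (Finset V)) (B : Finset V) : Finset (Finset V) :=
  (ed T).filter (fun e => ∃ t ∈ TB T B, e ⊆ t)

theorem mem_FB {B : Finset V} {e : Finset V} : e ∈ FB T B ↔ e ∈ ed T ∧ ∃ t ∈ TB T B, e ⊆ t :=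
  Finset.mem_filter

theorem mem_TB {B : Finset V} {t : Finset V} : t ∈ TB T B ↔ t ∈ T ∧ (t ∩ B).Nonempty :=
  Finset.mem_filter

/-- counting: `2 #F' ≤ 3 #D' + t₁(B)` -/
theorem count_FB (hT : Surf T) (B : Finset V) :
    2 * (FB T B).card ≤ 3 * (TB T B).card + tk T B 1 := by
  -- incidences
  have h1 : ∑ e ∈ FB T B, (T.filter (fun t => e ⊆ t)).card = 2 * (FB T B).card := by
    have : ∀ e ∈ FB T B, (T.filter (fun t => e ⊆ t)).card = 2 := fun e he =>
      Pool.Agent.Helper77.KC.two_edge hT e (mem_FB.1 he).1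
    rw [Finset.sum_congr rfl this, Finset.sum_const, smul_eq_mul, mul_comm]
  have h2 : ∀ e ∈ FB T B, (T.filter (fun t => e ⊆ t)).card =
      ((TB T B).filter (fun t => e ⊆ t)).card +
        ((T \ TB T B).filter (fun t => e ⊆ t)).card := by
    intro e _
    rw [← Finset.card_union_of_disjoint]
    · congr 1
      ext t
      simp only [Finset.mem_union, Finset.mem_filter, Finset.mem_sdiff]
      constructor
      · rintro ⟨h1, h2⟩
        by_cases h3 : t ∈ TB T B
        · exact Or.inl ⟨h3, h2⟩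
        · exact Or.inr ⟨⟨h1, h3⟩, h2⟩
      · rintro (⟨h1, h2⟩ | ⟨⟨h1, _⟩, h2⟩)
        · exact ⟨(mem_TB.1 h1).1, h2⟩
        · exact ⟨h1, h2⟩
    · rw [Finset.disjoint_left]
      intro t ht1 ht2
      rw [Finset.mem_filter, Finset.mem_sdiff] at ht2
      exact ht2.1.2 (Finset.mem_filter.1 ht1).1
  rw [Finset.sum_congr rfl h2, Finset.sum_add_distrib] at h1
  -- first sum
  have h3 : ∑ e ∈ FB T B, ((TB T B).filter (fun t => e ⊆ t)).card ≤ 3 * (TB T B).card := by
    have e1 : ∑ e ∈ FB T B, ((TB T B).filter (fun t => e ⊆ t)).card =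
        ∑ t ∈ TB T B, ((FB T B).filter (fun e => e ⊆ t)).card := by
      simp only [Finset.card_filter]
      rw [Finset.sum_comm]
    rw [e1, mul_comm, ← smul_eq_mul, ← Finset.sum_const]
    refine Finset.sum_le_sum fun t ht => ?_
    have e2 : (FB T B).filter (fun e => e ⊆ t) ⊆ Finset.powersetCard 2 t := by
      intro e he
      rw [Finset.mem_filter] at he
      rw [Finset.mem_powersetCard]
      exact ⟨he.2, (Finset.mem_filter.1 (mem_FB.1 he.1).1).2.1⟩
    refine le_trans (Finset.card_le_card e2) ?_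
    rw [Finset.card_powersetCard, hT.card t (mem_TB.1 ht).1]
    decide
  -- second sum
  have h4 : ∑ e ∈ FB T B, ((T \ TB T B).filter (fun t => e ⊆ t)).card ≤ tk T B 1 := by
    have e1 : ∀ e ∈ FB T B, ((T \ TB T B).filter (fun t => e ⊆ t)).card ≤
        ((T.filter (fun t => (t ∩ B).card = 1 ∧ t \ B = e))).card := by
      intro e he
      obtain ⟨he1, t, ht, het⟩ := mem_FB.1 he
      obtain ⟨htT, htB⟩ := mem_TB.1 ht
      have hec : e.card = 2 := (Finset.mem_filter.mp he1).2.1
      by_cases h0 : ((T \ TB T B).filter (fun t => e ⊆ t)).card = 0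
      · omega
      · have c1 : ((T \ TB T B).filter (fun t => e ⊆ t)).card ≤ 1 := by
          have c2 := h2 e he
          rw [Pool.Agent.Helper77.KC.two_edge hT e he1] at c2
          have c3 : 0 < ((TB T B).filter (fun t => e ⊆ t)).card :=
            Finset.card_pos.2 ⟨t, Finset.mem_filter.2 ⟨ht, het⟩⟩
          omega
        refine le_trans c1 ?_
        rw [Nat.one_le_iff_ne_zero, ← Nat.pos_iff_ne_zero, Finset.card_pos]
        -- `e` is disjoint from `B`
        obtain ⟨s, hs⟩ := Finset.card_pos.1 (Nat.pos_of_ne_zero h0)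
        rw [Finset.mem_filter, Finset.mem_sdiff] at hs
        obtain ⟨⟨hsT, hsB⟩, hes⟩ := hs
        have heB : ∀ a ∈ e, a ∉ B := by
          intro a ha haB
          apply hsB
          exact mem_TB.2 ⟨hsT, a, Finset.mem_inter.2 ⟨hes ha, haB⟩⟩
        obtain ⟨y, hy⟩ := htB
        rw [Finset.mem_inter] at hy
        have hye : y ∉ e := fun h => heB y h hy.2
        have hcard : (t \ e).card = 1 := by
          rw [Finset.card_sdiff_of_subset het, hT.card t htT, hec]
        obtain ⟨v, hv⟩ := Finset.card_eq_one.mp hcard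
        have hyv : y = v := by
          have : y ∈ t \ e := Finset.mem_sdiff.mpr ⟨hy.1, hye⟩
          rw [hv, Finset.mem_singleton] at this
          exact this
        subst hyv
        refine ⟨t, Finset.mem_filter.2 ⟨htT, ?_, ?_⟩⟩
        · rw [Finset.card_eq_one]
          refine ⟨y, ?_⟩
          ext a
          rw [Finset.mem_inter, Finset.mem_singleton]
          constructor
          · rintro ⟨h3, h4⟩
            have : a ∈ t \ e := Finset.mem_sdiff.mpr ⟨h3, fun h => heB a h h4⟩
            rw [hv, Finset.mem_singleton] at this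
            exact this
          · rintro rfl
            exact hy
        · ext a
          rw [Finset.mem_sdiff]
          constructor
          · rintro ⟨h3, h4⟩
            by_contra hae
            have : a ∈ t \ e := Finset.mem_sdiff.mpr ⟨h3, hae⟩
            rw [hv, Finset.mem_singleton] at this
            subst this
            exact h4 hy.2
          · intro ha
            exact ⟨het ha, heB a ha⟩
    refine le_trans (Finset.sum_le_sum e1) ?_
    have e2 : ∀ e ∈ FB T B, ∀ e' ∈ FB T B, e ≠ e' →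
        Disjoint (T.filter (fun t => (t ∩ B).card = 1 ∧ t \ B = e))
          (T.filter (fun t => (t ∩ B).card = 1 ∧ t \ B = e')) := by
      intro e _ e' _ hne
      rw [Finset.disjoint_left]
      intro t h1 h2
      rw [Finset.mem_filter] at h1 h2
      exact hne (h1.2.2.symm.trans h2.2.2)
    rw [← Finset.card_biUnion e2]
    unfold tk
    apply Finset.card_le_card
    intro t ht
    rw [Finset.mem_biUnion] at ht
    obtain ⟨e, _, he⟩ := ht
    rw [Finset.mem_filter] at he ⊢
    exact ⟨he.1, he.2.1⟩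
  omega

/-- growth, abstract form -/
theorem growth (hT : Surf T) (B W : Finset V) (hW : W.Nonempty) (hWu : W ≠ univ)
    (hBW : ∀ t ∈ T, (t ∩ B).Nonempty → t ⊆ W)
    (hcon : ∀ u ∈ W, ∀ v ∈ W, (gr (FB T B)).Reachable u v) :
    (tk T W 1 : ℤ) ≤ tk T B 1 + 6 + ∑ x ∈ W, ((dg T x : ℤ) - 6) ∧
    ((∃ z ⊆ FB T B, Even2 z ∧ ∀ D' ⊆ trW T W, bd T D' ≠ z) →
      (tk T W 1 : ℤ) ≤ tk T B 1 + ∑ x ∈ W, ((dg T x : ℤ) - 6)) := by
  have hTBW : TB T B ⊆ trW T W := by
    intro t ht
    exact Finset.mem_filter.2 ⟨(mem_TB.1 ht).1, hBW t (mem_TB.1 ht).1 (mem_TB.1 ht).2⟩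
  have hFBW : FB T B ⊆ edW T W := by
    intro e he
    obtain ⟨he1, t, ht, het⟩ := mem_FB.1 he
    exact Finset.mem_filter.2 ⟨he1, het.trans (hBW t (mem_TB.1 ht).1 (mem_TB.1 ht).2)⟩
  have htrne : trW T W ≠ T := by
    intro h
    apply hWu
    rw [Finset.eq_univ_iff_forall]
    intro v
    obtain ⟨t, ht, hvt⟩ := hT.cover v
    rw [← h] at ht
    exact (Finset.mem_filter.1 ht).2 hvt
  have hTBne : TB T B ≠ T := by
    intro h
    apply htrne
    apply Finset.Subset.antisymm (Finset.filter_subset _ _)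
    rw [h] at hTBW
    exact hTBW
  have hcon' : ∀ u ∈ W, ∀ v ∈ W, (gr (edW T W)).Reachable u v := by
    intro u hu v hv
    refine (hcon u hu v hv).mono ?_
    intro a b hab
    exact ⟨hab.1, hFBW hab.2⟩
  have c1 := chi_le hT W (FB T B) (TB T B) hW (Finset.filter_subset _ _)
    (fun e he => (Finset.mem_filter.1 (hFBW he)).2) (Finset.filter_subset _ _) hTBne
    (fun t ht e he het => mem_FB.2 ⟨he, t, ht, het⟩) hcon
  have c2 := chi_le hT W (edW T W) (trW T W) hW (Finset.filter_subset _ _)
    (fun e he => (Finset.mem_filter.1 he).2) (Finset.filter_subset _ _) htrne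
    (fun t ht e he het => Finset.mem_filter.2 ⟨he, het.trans (Finset.mem_filter.1 ht).2⟩) hcon'
  have c3 := count_FB hT B
  have c4 := Pool.Agent.Helper77.KC.cn V T hT W
  have c5 := Pool.Agent.Helper77.KC.sum_edge hT W
  have c6 := Pool.Agent.Helper77.KC.trW_eq hT W
  have c7 := Finset.card_le_card hTBW
  unfold chiW at c4
  rw [c6] at c4 c2 c7
  constructor
  · have d1 := c1.1
    have d2 := c2.1
    zify at d1 d2 c3 c5 c7
    linarith
  · rintro ⟨z, hz, hev, hno⟩
    have d1 := c1.2 ⟨z, hz, hev, fun D' hD' => hno D' (hD'.trans hTBW)⟩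
    have d2 := c2.2 ⟨z, hz.trans hFBW, hev, hno⟩
    zify at d1 d2 c3 c5 c7
    linarith

end Pool.Agent.Helper94.KC.TW
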