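import Pool.Agent.Helper94.KC.TW.Ball

/-!
# Project KC (MP_bf413e_co), part TW: few vertices of degree at most 5 near the shortest cycle
-/

set_option autoImplicit false

namespace Pool.Agent.Helper94.KC.TW

open scoped Classical
open Finset
open Pool.Agent.Helper94.KC
open Pool.Agent.Helper30.KC

variable {V : Type} [Fintype V] {T : Finset (Finset V)}

/-- the hub excess in a ball -/
noncomputable def hex (T : Finset (Finset V)) (x : V) (k : ℕ) : ℕ :=
  ∑ v ∈ univ.filter (fun v => 7 ≤ dg T v ∧ (sk T).dist x v ≤ k), (dg T v - 6)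

/-- the vertices of degree at most 5 in a ball -/
noncomputable def lo (T : Finset (Finset V)) (x : V) (k : ℕ) : Finset V :=
  (bl T x k).filter (fun v => dg T v ≤ 5)

theorem lo_mono {x : V} {k l : ℕ} (h : k ≤ l) : lo T x k ⊆ lo T x l :=
  Finset.filter_subset_filter _ (bl_mono h)

theorem hex_mono {x : V} {k l : ℕ} (h : k ≤ l) : hex T x k ≤ hex T x l := by
  apply Finset.sum_le_sum_of_subset
  intro v hv
  rw [Finset.mem_filter] at hv ⊢
  exact ⟨hv.1, hv.2.1, hv.2.2.trans h⟩

/-- the curvature sum of a ball -/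
theorem ssum (x : V) (k : ℕ) :
    ∑ v ∈ bl T x k, ((dg T v : ℤ) - 6) ≤ hex T x k - (lo T x k).card := by
  have h1 : ∑ v ∈ bl T x k, ((dg T v : ℤ) - 6) ≤
      ∑ v ∈ bl T x k, ((if 7 ≤ dg T v then ((dg T v : ℤ) - 6) else 0) -
        (if dg T v ≤ 5 then 1 else 0)) := by
    apply Finset.sum_le_sum
    intro v _
    by_cases h7 : 7 ≤ dg T v
    · rw [if_pos h7, if_neg (by omega)]
      omega
    · rw [if_neg h7]
      by_cases h5 : dg T v ≤ 5
      · rw [if_pos h5]; omega
      · rw [if_neg h5]; omega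
  refine le_trans h1 ?_
  rw [Finset.sum_sub_distrib, ← Finset.sum_filter, ← Finset.sum_filter, Finset.sum_const,
    nsmul_eq_mul, mul_one]
  have h2 : ∑ v ∈ (bl T x k).filter (fun v => 7 ≤ dg T v), ((dg T v : ℤ) - 6) = hex T x k := by
    unfold hex
    rw [Nat.cast_sum]
    have h3 : (bl T x k).filter (fun v => 7 ≤ dg T v) =
        univ.filter (fun v => 7 ≤ dg T v ∧ (sk T).dist x v ≤ k) := by
      ext v
      simp only [Finset.mem_filter, mem_bl, Finset.mem_univ, true_and]
      tauto
    rw [h3]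
    apply Finset.sum_congr rfl
    intro v hv
    rw [Finset.mem_filter] at hv
    rw [Nat.cast_sub (by omega)]
    rfl
  rw [h2]
  exact le_refl _

/-- a far away point on the shortest cycle -/
theorem farp (hT : Surf T) {x₀ : V} {w : (sk T).Walk x₀ x₀} (hw : Shortest T w) (x : V) (K : ℕ)
    (h : 4 * K + 2 < w.length) : ∃ y ∈ w.support, K < (sk T).dist x y := by
  obtain ⟨y, h1, _, h3⟩ := ex2 V T hT x₀ w hw {x} 1 K 0 (by
    rw [Finset.card_singleton]
    omega)
  refine ⟨y 0, h1 0, ?_⟩
  rw [SimpleGraph.dist_comm]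
  exact h3 0 x (Finset.mem_singleton_self x)

theorem bl_ne {x y : V} {k : ℕ} (h : k < (sk T).dist x y) : bl T x k ≠ univ := by
  intro hu
  have h1 : y ∈ bl T x k := by rw [hu]; exact Finset.mem_univ y
  rw [mem_bl] at h1
  omega

/-- few vertices of degree at most 5 near a point of the shortest cycle -/
theorem low_le (hT : Surf T) {c : ℕ} (hEW : EW T c) {x₀ : V} {w : (sk T).Walk x₀ x₀}
    (hw : Shortest T w) {x : V} (hx : x ∈ w.support) (E j₀ : ℕ)
    (hlen : 4 * ((8 + E) * (2 * j₀ + 1)) + 2 < w.length) (hc : (6 + E) * (2 * j₀ + 1) < c)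
    (hE : hex T x (2 * j₀) ≤ E) : (lo T x j₀).card ≤ 7 + 2 * E := by
  obtain ⟨y, hy, hxy⟩ := farp hT hw x _ hlen
  set k := 2 * j₀ with hk
  have h8 : (8 + E) * (k + 1) = 8 * (k + 1) + E * (k + 1) := by ring
  have h6 : (6 + E) * (k + 1) = 6 * (k + 1) + E * (k + 1) := by ring
  have hne : bl T x k ≠ univ := bl_ne (y := y) (by omega)
  have h1 := gsum hT x k hne
  -- the sum
  have h2 : ∑ j ∈ range (k + 1), ∑ v ∈ bl T x j, ((dg T v : ℤ) - 6) ≤
      ∑ j ∈ range (k + 1), ((E : ℤ) - (if j₀ ≤ j then ((lo T x j₀).card : ℤ) else 0)) := by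
    apply Finset.sum_le_sum
    intro j hj
    rw [Finset.mem_range] at hj
    have a1 := ssum (T := T) x j
    have a2 := hex_mono (T := T) (x := x) (show j ≤ k by omega)
    have a3 : (hex T x j : ℤ) ≤ E := by exact_mod_cast a2.trans hE
    split_ifs with h
    · have a4 : ((lo T x j₀).card : ℤ) ≤ (lo T x j).card := by
        have a5 := Finset.card_le_card (lo_mono (T := T) (x := x) h)
        exact_mod_cast a5
      linarith
    · have a4 : (0 : ℤ) ≤ (lo T x j).card := Int.natCast_nonneg _
      linarith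
  have h3 : ∑ j ∈ range (k + 1), ((E : ℤ) - (if j₀ ≤ j then ((lo T x j₀).card : ℤ) else 0)) =
      (k + 1) * E - (j₀ + 1) * (lo T x j₀).card := by
    rw [Finset.sum_sub_distrib, Finset.sum_const, Finset.card_range, ← Finset.sum_filter,
      Finset.sum_const]
    have h4 : (range (k + 1)).filter (fun j => j₀ ≤ j) = Finset.Ico j₀ (k + 1) := by
      ext j
      simp only [Finset.mem_filter, Finset.mem_range, Finset.mem_Ico]
      tauto
    rw [h4, Nat.card_Ico, nsmul_eq_mul, nsmul_eq_mul]
    have h5 : k + 1 - j₀ = j₀ + 1 := by omega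
    rw [h5]
    push_cast
    ring
  rw [h3] at h2
  have h4 : (tk T (bl T x k) 1 : ℤ) ≤ (6 + E) * (k + 1) := by
    have a0 : (0 : ℤ) ≤ (j₀ + 1) * (lo T x j₀).card := by positivity
    have : ((6 : ℤ) + E) * (k + 1) = 6 * (k + 1) + (k + 1) * E := by ring
    linarith
  have h5 : tk T (bl T x k) 1 ≤ (6 + E) * (k + 1) := by exact_mod_cast h4
  have h7 := lower hT hEW hw hx k (by omega) hy (by omega)
  have h9 : (2 : ℤ) * (k + 1) ≤ tk T (bl T x k) 1 := by exact_mod_cast h7
  by_contra hcon
  have h10 : (8 : ℤ) + 2 * E ≤ (lo T x j₀).card := by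
    have : 8 + 2 * E ≤ (lo T x j₀).card := by omega
    exact_mod_cast this
  have h11 : ((j₀ : ℤ) + 1) * (8 + 2 * E) ≤ (j₀ + 1) * (lo T x j₀).card :=
    mul_le_mul_of_nonneg_left h10 (by positivity)
  have h12 : (k : ℤ) = 2 * j₀ := by rw [hk]; push_cast; ring
  rw [h12] at h1 h2 h9
  nlinarith

/-- no balloons near the shortest cycle -/
theorem noballoon (hT : Surf T) {c : ℕ} (hEW : EW T c) (hc : 43 ≤ c) {x₀ : V}
    {w : (sk T).Walk x₀ x₀} (hw : Shortest T w) {x : V} (hx : x ∈ w.support)
    (hlen : 200 ≤ w.length) (hreg : ∀ v, (sk T).dist x v ≤ 21 → dg T v = 6)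
    {y : V} (w' : (sk T).Walk y y) (D : Finset (Finset V)) (v : V) (hw' : w'.IsCycle)
    (hl : w'.length ≤ 12) (hd : ∀ z ∈ w'.support, (sk T).dist x z ≤ 6) (hD : Disc T D (wed w'))
    (hvD : v ∈ vs D) (hdg : dg T v ≤ 5) : False := by
  obtain ⟨ev1, ev2, ev3, ev4, ev5, ev6⟩ := ev V T hT
  obtain ⟨u, hu, hxu⟩ := farp hT hw x 45 (by omega)
  have hS : ∀ j ≤ 21, ∑ v ∈ bl T x j, ((dg T v : ℤ) - 6) = 0 := by
    intro j hj
    apply Finset.sum_eq_zero
    intro a ha
    rw [mem_bl] at ha
    rw [hreg a (by omega)]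
    norm_num
  have hv : 21 < (sk T).dist x v := by
    by_contra h
    have := hreg v (by omega)
    omega
  have h6 : (tk T (bl T x 6) 1 : ℤ) ≤ 42 := by
    have h1 := gsum hT x 6 (bl_ne (y := u) (by omega))
    have h2 : ∑ j ∈ range (6 + 1), ∑ v ∈ bl T x j, ((dg T v : ℤ) - 6) = 0 := by
      apply Finset.sum_eq_zero
      intro j hj
      rw [Finset.mem_range] at hj
      exact hS j (by omega)
    rw [h2] at h1
    push_cast at h1
    linarith
  have hstep : ∀ k, 6 ≤ k → k < 21 →
      (tk T (bl T x (k + 1)) 1 : ℤ) ≤ tk T (bl T x k) 1 := by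
    intro k hk hk'
    have h1 := (gstep hT x k (bl_ne (y := u) (by omega))).2 ?_
    · rw [hS (k + 1) (by omega), add_zero] at h1
      exact h1
    · refine ⟨wed w', ?_, (ev4 y w' hw').1, ?_⟩
      · intro e he
        have hed := (ev4 y w' hw').2.2 he
        obtain ⟨-, hcard, t, ht, het⟩ := Finset.mem_filter.1 hed
        refine mem_FB.2 ⟨hed, t, mem_TB.2 ⟨ht, ?_⟩, het⟩
        obtain ⟨a, ha⟩ := Finset.card_pos.1 (by omega : 0 < e.card)
        refine ⟨a, Finset.mem_inter.2 ⟨het ha, ?_⟩⟩
        rw [mem_bl]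
        have := hd a (Pool.Agent.Helper39.KC.mem_support_of_wed w' he ha)
        omega
      · intro D' hD' hb
        have h2 : symmDiff D' D = ∅ ∨ symmDiff D' D = T := by
          apply ev6
          · intro t ht
            rw [Finset.mem_symmDiff] at ht
            rcases ht with h | h
            · exact (Finset.mem_filter.1 (hD' h.1)).1
            · exact hD.sub h.1
          · rw [ev1, hb, hD.bdy]
            exact symmDiff_self _
        rcases h2 with h2 | h2
        · have h3 : D' = D := symmDiff_eq_bot.mp h2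
          obtain ⟨t, ht, hvt⟩ := (Finset.mem_filter.1 hvD).2
          rw [← h3] at ht
          have h4 := (Finset.mem_filter.1 (hD' ht)).2 hvt
          rw [mem_bl] at h4
          omega
        · obtain ⟨t, ht, hut⟩ := hT.cover u
          have h3 : t ∉ D' := by
            intro h
            have h4 := (Finset.mem_filter.1 (hD' h)).2 hut
            rw [mem_bl] at h4
            omega
          have h4 : t ∈ D := by
            have h5 : t ∈ symmDiff D' D := by rw [h2]; exact ht
            rw [Finset.mem_symmDiff] at h5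
            tauto
          obtain ⟨p, hp, hp2⟩ := Pool.Agent.Helper30.KC.ar V T hT x₀ w hw u hu D y w' hw' hD
            ⟨t, h4, hut⟩ (fun h => by have := hd u h; omega)
          have h5 := hd p hp
          have h6 := hT.conn.dist_triangle (u := x) (v := p) (w := u)
          rw [SimpleGraph.dist_comm (u := p) (v := u)] at h6
          omega
  have h21 : ∀ n, n ≤ 15 → (tk T (bl T x (6 + n)) 1 : ℤ) ≤ 42 := by
    intro n
    induction n with
    | zero => intro _; exact h6
    | succ n ih =>
      intro hn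
      have h1 := ih (by omega)
      have h2 := hstep (6 + n) (by omega) (by omega)
      exact le_trans h2 h1
  have h1 := h21 15 (le_refl _)
  have h2 : tk T (bl T x 21) 1 ≤ 42 := by exact_mod_cast h1
  have h3 := lower hT hEW hw hx 21 (by omega) hu (by omega)
  omega

end Pool.Agent.Helper94.KC.TW
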