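import Pool.Agent.Helper94.KC.TW.Low
import Pool.Agent.Helper94.KC.TUS

/-!
# Project KC (MP_bf413e_co), part TW: main theorems
-/

set_option autoImplicit false

namespace Pool.Agent.Helper94.KC.TW

open scoped Classical
open Finset
open Pool.Agent.Helper94.KC
open Pool.Agent.Helper30.KC
open Pool.Agent.Helper96.KT (ew_mono dev_dist)
open Pool.Agent.Helper30.ML (Mac rs del)

variable {V : Type} [Fintype V] {T : Finset (Finset V)}

/-- a flat patch at a point of the shortest cycle in a regular ball of radius 21 -/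
theorem good_patch (hT : Surf T) {c : ℕ} (hEW : EW T c) (hc : 43 ≤ c) {x₀ : V}
    {w : (sk T).Walk x₀ x₀} (hw : Shortest T w) {x : V} (hx : x ∈ w.support)
    (hlen : 200 ≤ w.length) (hreg : ∀ v, (sk T).dist x v ≤ 21 → dg T v = 6) :
    ∃ f : ℤ × ℤ → V, f (0, 0) = x ∧ Dev T 6 f ∧ Patch (sk T) f := by
  obtain ⟨f, hf0, hfD⟩ := dv V T x 6 hT (fun y hy => hreg y (by omega))
  refine ⟨f, hf0, hfD, ?_⟩
  rcases ij2 V T f hT (ew_mono hEW (by omega)) hfD with h | h
  · exact h
  · exfalso
    obtain ⟨y, w', D, v, h1, h2, h3, h4, h5, _, h7⟩ := h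
    rw [hf0] at h3
    exact noballoon hT hEW hc hw hx hlen hreg w' D v h1 h2 h3 h4 h5 h7

/-- points of the shortest cycle near `x` -/
theorem near_card {x₀ : V} {w : (sk T).Walk x₀ x₀} (hw : w.IsCycle) {x : V}
    (hx : x ∈ w.support) (j : ℕ) (hj : j < w.length) :
    j + 1 ≤ (w.support.toFinset.filter (fun v => (sk T).dist x v ≤ j)).card := by
  set c := w.rotate x hx with hcdef
  have hc : c.IsCycle := (SimpleGraph.Walk.isCycle_rotate hx).2 hw
  have hcl : c.length = w.length := SimpleGraph.Walk.length_rotate w x hx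
  have hinj : Set.InjOn c.getVert (range (j + 1) : Set ℕ) := by
    intro a ha b hb hab
    rw [Finset.coe_range, Set.mem_Iio] at ha hb
    have h1 : ∀ n, n < j + 1 → n ≤ c.length - 1 := fun n hn => by omega
    exact hc.getVert_injOn' (h1 a ha) (h1 b hb) hab
  rw [← Finset.card_range (j + 1), ← Finset.card_image_of_injOn hinj]
  apply Finset.card_le_card
  intro v hv
  rw [Finset.mem_image] at hv
  obtain ⟨n, hn, rfl⟩ := hv
  rw [Finset.mem_range] at hn
  rw [Finset.mem_filter, List.mem_toFinset]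
  constructor
  · rw [← SimpleGraph.Walk.mem_support_rotate_iff w x hx]
    exact c.getVert_mem_support n
  · have h1 : (sk T).dist x (c.getVert n) ≤ (c.take n).length := SimpleGraph.dist_le _
    rw [SimpleGraph.Walk.take_length] at h1
    omega

/-- the radius of the ball around `x` -/
def Nr (ρ E : ℕ) : ℕ := 1330 + 4 * ρ + E * (16 * ρ + 510)

/-- hub chains of diameter at most `ρ`, few hubs near one point of the shortest cycle -/
theorem main_b (ρ E : ℕ) (hT : Surf T) (hHD : HD T ρ)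
    (hEW : EW T (4 * (8 + E) * (Nr ρ E + 1) + 3)) {x₀ : V}
    {w : (sk T).Walk x₀ x₀} (hw : Shortest T w) {x : V} (hx : x ∈ w.support)
    (hE : hex T x (Nr ρ E) ≤ E) : ∀ G ≤ sk T, AllEq G := by
  set j₁ := 644 + E * (8 * ρ + 255) with hj₁
  set K := 2 * ρ + 21 with hK
  have hNr : Nr ρ E = 2 * (j₁ + K) := by
    unfold Nr
    rw [hj₁, hK]
    ring
  have hlen : 4 * (8 + E) * (Nr ρ E + 1) + 3 ≤ w.length := by
    by_contra h
    obtain ⟨D, hD⟩ := hEW x₀ w hw.cyc (by omega)
    exact hw.nb ⟨D, hD.sub, hD.bdy⟩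
  have e1 : 4 * (8 + E) * (Nr ρ E + 1) = 4 * ((8 + E) * (2 * (j₁ + K) + 1)) := by
    rw [hNr]; ring
  have e2 : (8 + E) * (2 * (j₁ + K) + 1) =
      (6 + E) * (2 * (j₁ + K) + 1) + 2 * (2 * (j₁ + K) + 1) := by ring
  have e3 : (6 + E) * (2 * (j₁ + K) + 1) =
      6 * (2 * (j₁ + K) + 1) + E * (2 * (j₁ + K) + 1) := by ring
  -- few vertices of degree at most 5
  have hlow := low_le hT hEW hw hx E (j₁ + K) (by omega) (by omega) (by rw [← hNr]; exact hE)
  -- few hubs
  set H := univ.filter (fun v => 7 ≤ dg T v ∧ (sk T).dist x v ≤ Nr ρ E) with hH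
  have hHc : H.card ≤ E := by
    refine le_trans ?_ hE
    unfold hex
    rw [← hH, Finset.card_eq_sum_ones]
    apply Finset.sum_le_sum
    intro v hv
    rw [hH, Finset.mem_filter] at hv
    omega
  have hball := fun h K => Pool.Agent.Helper25.KC.ball_card sh hT hw h K
  set A := w.support.toFinset.filter (fun v => (sk T).dist x v ≤ j₁) with hA
  have hAc : j₁ + 1 ≤ A.card := near_card hw.cyc hx j₁ (by omega)
  set B1 := (lo T x (j₁ + K)).biUnion
    (fun h => w.support.toFinset.filter (fun v => (sk T).dist h v ≤ 21)) with hB1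
  set B2 := H.biUnion (fun h => w.support.toFinset.filter (fun v => (sk T).dist h v ≤ K)) with hB2
  have c1 : B1.card ≤ (7 + 2 * E) * 85 := by
    refine le_trans (Finset.card_biUnion_le_card_mul _ _ _ (fun h _ => hball h 21)) ?_
    exact Nat.mul_le_mul_right _ hlow
  have c2 : B2.card ≤ E * (4 * K + 1) := by
    refine le_trans (Finset.card_biUnion_le_card_mul _ _ _ (fun h _ => hball h K)) ?_
    exact Nat.mul_le_mul_right _ hHc
  -- the points of `A` outside `B1 ∪ B2` are good
  have hgood : ∀ a ∈ A, a ∉ B1 ∪ B2 → a ∈ w.support ∧ (∀ v, (sk T).dist a v ≤ 21 → dg T v = 6) ∧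
      ∀ h, 7 ≤ dg T h → 2 * ρ + 4 < (sk T).dist a h := by
    intro a ha hnot
    rw [hA, Finset.mem_filter, List.mem_toFinset] at ha
    rw [Finset.mem_union, not_or] at hnot
    have hhub : ∀ h, 7 ≤ dg T h → K < (sk T).dist a h := by
      intro h h7
      by_contra hcon
      apply hnot.2
      rw [hB2, Finset.mem_biUnion]
      refine ⟨h, ?_, ?_⟩
      · rw [hH, Finset.mem_filter]
        have h1 := hT.conn.dist_triangle (u := x) (v := a) (w := h)
        exact ⟨Finset.mem_univ _, h7, by omega⟩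
      · rw [Finset.mem_filter, List.mem_toFinset, SimpleGraph.dist_comm]
        exact ⟨ha.1, by omega⟩
    refine ⟨ha.1, ?_, ?_⟩
    · intro v hv
      have h1 : ¬ 7 ≤ dg T v := by
        intro h7
        have := hhub v h7
        omega
      have h2 : ¬ dg T v ≤ 5 := by
        intro h5
        apply hnot.1
        rw [hB1, Finset.mem_biUnion]
        refine ⟨v, ?_, ?_⟩
        · refine Finset.mem_filter.2 ⟨?_, h5⟩
          rw [mem_bl]
          have h1 := hT.conn.dist_triangle (u := x) (v := a) (w := v)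
          omega
        · rw [Finset.mem_filter, List.mem_toFinset, SimpleGraph.dist_comm]
          exact ⟨ha.1, by omega⟩
      omega
    · intro h h7
      have := hhub h h7
      omega
  have c3 : (B1 ∪ B2).card < A.card := by
    have h1 := Finset.card_union_le B1 B2
    have h2 : (7 + 2 * E) * 85 + E * (4 * K + 1) = 595 + E * (8 * ρ + 255) := by
      rw [hK]; ring
    omega
  obtain ⟨a, haA, haB⟩ := Finset.exists_mem_notMem_of_card_lt_card c3
  set B3 := w.support.toFinset.filter (fun v => (sk T).dist a v ≤ 12) with hB3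
  have c4 : ((B1 ∪ B2) ∪ B3).card < A.card := by
    have h1 := Finset.card_union_le B1 B2
    have h3 := Finset.card_union_le (B1 ∪ B2) B3
    have h4 : B3.card ≤ 49 := hball a 12
    have h2 : (7 + 2 * E) * 85 + E * (4 * K + 1) = 595 + E * (8 * ρ + 255) := by
      rw [hK]; ring
    omega
  obtain ⟨b, hbA, hbB⟩ := Finset.exists_mem_notMem_of_card_lt_card c4
  rw [Finset.mem_union, not_or] at hbB
  obtain ⟨ga1, ga2, ga3⟩ := hgood a haA haB
  obtain ⟨gb1, gb2, gb3⟩ := hgood b hbA hbB.1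
  have hab : 12 < (sk T).dist a b := by
    by_contra hcon
    apply hbB.2
    rw [hB3, Finset.mem_filter, List.mem_toFinset]
    exact ⟨gb1, by omega⟩
  obtain ⟨f, hf0, hfD, hfP⟩ := good_patch hT hEW (by omega) hw ga1 (by omega) ga2
  obtain ⟨g, hg0, hgD, hgP⟩ := good_patch hT hEW (by omega) hw gb1 (by omega) gb2
  intro G hG
  refine tiS V T ρ 0 hT hHD (ew_mono hEW (by omega)) x₀ w hw a b f g ga1 gb1 hfP hgP ?_ ?_ ?_ ?_
    G hG
  · intro p q hp hq h
    have h1 := dev_dist hT hfD (hn p) hp p rfl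
    have h2 := dev_dist hT hgD (hn q) hq q rfl
    rw [hf0] at h1
    rw [hg0] at h2
    have h4 := hT.conn.dist_triangle (u := a) (v := f p) (w := b)
    rw [h, SimpleGraph.dist_comm (u := g q)] at h4
    rw [h] at h1
    omega
  · rw [hf0, SimpleGraph.dist_self]
  · rw [hg0, SimpleGraph.dist_self]
  · intro h h7
    rw [hf0, hg0]
    have h1 := ga3 h h7
    have h2 := gb3 h h7
    constructor <;> omega

/-- all vertices of degree at least 7 are in `m` balls of radius `r` -/
theorem main_a (m r : ℕ) (hT : Surf T) (Z : Finset V) (hZc : Z.card ≤ m)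
    (hZ : ∀ v, 7 ≤ dg T v → ∃ z ∈ Z, (sk T).dist z v ≤ r)
    (hEW : EW T (43000 * (m + 1) ^ 2 * (r + 1))) : ∀ G ≤ sk T, AllEq G := by
  intro G hG
  by_cases hb : ∀ z ⊆ ed T, Even2 z → Bounds T z
  · have h1 := Pool.Agent.Helper30.ML.br V T hT univ (by
      intro z hz hev
      have hz' : z ⊆ ed T := fun e he => (mem_filter.1 (hz he)).1
      obtain ⟨D, hD, hDz⟩ := hb z hz' hev
      refine ⟨D, fun s hs => mem_filter.2 ⟨hD hs, subset_univ s⟩, hDz⟩)
    have h2 : rs (sk T) ((univ : Finset V) : Set V) = sk T := by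
      ext a b
      simp [rs]
    rw [h2] at h1
    exact Pool.Agent.Helper30.ML.meyniel V G (Pool.Agent.Helper30.ML.su V _ _ hG h1)
  · push Not at hb
    obtain ⟨x₀, w, hw, hcw⟩ := sz V T _ hT hEW hb
    have hHD := hd_balls T hT.conn Z m r hZc hZ
    set ρ := m * (2 * r + 2) with hρ
    have e0 : 43000 * (m + 1) ^ 2 * (r + 1) = 43000 * (r + 1) + 86000 * (m * (r + 1)) +
        43000 * (m ^ 2 * (r + 1)) := by ring
    have e1 : ρ = 2 * (m * (r + 1)) := by rw [hρ]; ring
    have e2 : m * ρ = 2 * (m ^ 2 * (r + 1)) := by rw [hρ]; ring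
    have e3 : m * (r + 1) = m * r + m := by ring
    have hN : Nr ρ 0 = 1330 + 4 * ρ := by unfold Nr; ring
    have e4 : m * (4 * (Nr ρ 0 + r) + 1) = 5321 * m + 16 * (m * ρ) + 4 * (m * r) := by
      rw [hN]; ring
    obtain ⟨x, hxw, -, hxZ⟩ := ex2 V T hT x₀ w hw Z 1 (Nr ρ 0 + r) 0 (by
      have h1 : Z.card * (4 * (Nr ρ 0 + r) + 1) ≤ m * (4 * (Nr ρ 0 + r) + 1) :=
        Nat.mul_le_mul_right _ hZc
      omega)
    refine main_b ρ 0 hT hHD (ew_mono hEW (by omega)) hw (hxw 0) ?_ G hG
    have h0 : univ.filter (fun v => 7 ≤ dg T v ∧ (sk T).dist (x 0) v ≤ Nr ρ 0) = ∅ := by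
      rw [Finset.filter_eq_empty_iff]
      rintro v - ⟨h7, hd⟩
      obtain ⟨z, hz, hdz⟩ := hZ v h7
      have h1 := hxZ 0 z hz
      have h2 := hT.conn.dist_triangle (u := x 0) (v := v) (w := z)
      rw [SimpleGraph.dist_comm (u := v) (v := z)] at h2
      omega
    unfold hex
    rw [h0, Finset.sum_empty]

end Pool.Agent.Helper94.KC.TW
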