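import Pool.Agent.Helper94.KC.TW.Fin
import Pool.Agent.Helper94.KC.RED

/-!
# Project KC (MP_bf413e_co), part TW: planarizing regions without hubs
-/

set_option autoImplicit false

namespace Pool.Agent.Helper94.KC.TW

open scoped Classical
open Finset
open Pool.Agent.Helper94.KC
open Pool.Agent.Helper30.KC
open Pool.Agent.Helper96.KT (ew_mono dev_dist)
open Pool.Agent.Helper30.ML (Mac rs del)
open Pool.Agent.Helper4.KC (mem_hB)

variable {V : Type} [Fintype V] {T : Finset (Finset V)}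

/-- deletion spreads along a connected region without hubs -/
theorem spread (hS : Surf T) (R : Finset V) (h5 : ∀ x ∈ R, 5 ≤ dR (sk T) R x) (Y : Finset V)
    (hY : ∀ y ∈ Y, ∀ h, (sk T).Adj y h → dg T h ≤ 6) {x u : V} (hx : x ∈ Y) (hxR : x ∉ R)
    (huR : u ∉ R) (hxu : (sk T).Adj x u) :
    ∀ y, (rs (sk T) (Y : Set V)).Reachable x y → y ∉ R ∧ ∀ v, (sk T).Adj y v → v ∉ R := by
  have claimA : ∀ v ∈ Y, v ∉ R → ∀ w0, (sk T).Adj v w0 → w0 ∉ R →
      ∀ w, (sk T).Adj v w → w ∉ R := by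
    intro v hvY hv w0 hw0 hw0R w hw
    have hr := hS.link v w0 w hw0 hw
    have hstep : ∀ p q, (lk T v).Adj p q → p ∉ R → q ∉ R := by
      intro p q hpq hp hq
      obtain ⟨hne, hpv, hqv, t, ht, hvt, hpt, hqt⟩ := hpq
      have hadj : (lk T q).Adj v p := ⟨hpv.symm, hqv.symm, hne, t, ht, hqt, hvt, hpt⟩
      have hqa : (sk T).Adj q v := ⟨hqv, t, ht, hqt, hvt⟩
      have h7 := gh V T R q v p (h5 q hq) hv hp hadj hS
      have h1 := hY v hvY q hqa.symm
      omega
    obtain ⟨p⟩ := hr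
    clear hw hw0
    induction p with
    | nil => exact hw0R
    | cons hadj _ ih => exact ih (hstep _ _ hadj hw0R)
  intro y hr
  rw [SimpleGraph.reachable_iff_reflTransGen] at hr
  induction hr with
  | refl => exact ⟨hxR, claimA x hx hxR u hxu huR⟩
  | @tail p q _ hpq ih =>
    have hq : q ∉ R := ih.2 q hpq.1
    exact ⟨hq, claimA q (Finset.mem_coe.1 hpq.2.2) hq p hpq.1.symm ih.1⟩

/-- two flat patches in a planarizing region without hubs -/
theorem region_patches (hS : Surf T) (Y : Finset V)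
    (hc : ∀ y ∈ Y, ∀ y' ∈ Y, (rs (sk T) (Y : Set V)).Reachable y y')
    (hY : ∀ y ∈ Y, ∀ h, (sk T).Adj y h → dg T h ≤ 6)
    (hR : ∀ R : Finset V, (∀ y ∈ Y, y ∉ R ∧ ∀ v, (sk T).Adj y v → v ∉ R) →
      (∀ x ∈ R, 5 ≤ dR (sk T) R x) → Mac (rs (sk T) (R : Set V)))
    (i₁ i₂ : ℤ × ℤ → V) (p1 : Patch (sk T) i₁) (p2 : Patch (sk T) i₂)
    (hd : ∀ p q, hn p ≤ 6 → hn q ≤ 6 → i₁ p ≠ i₂ q) (h1 : i₁ (0, 0) ∈ Y)
    (h2 : i₂ (0, 0) ∈ Y) : ∀ G ≤ sk T, AllEq G := by
  have key : ∀ i : ℤ × ℤ → V, Patch (sk T) i → i (0, 0) ∈ Y → ∀ G ≤ sk T,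
      AllEq (rs G ((univ \ core i : Finset V) : Set V)) := by
    intro i hi hiY G hG
    refine clos (sk T) G hG (univ \ core i) ?_
    intro R hRS h5
    have h00 : i (0, 0) ∈ core i := by
      unfold core
      exact mem_image_of_mem _ ((mem_hB _ _).2 (by simp [hn]))
    have h10 : i (1, 0) ∈ core i := by
      unfold core
      exact mem_image_of_mem _ ((mem_hB _ _).2 (by simp [hn]))
    have hadj : (sk T).Adj (i (0, 0)) (i (1, 0)) :=
      (hi.nb (0, 0) (by simp [hn]) _).2 ⟨(1, 0), by simp [hn], rfl⟩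
    have hx0 : i (0, 0) ∉ R := fun h => (mem_sdiff.1 (hRS h)).2 h00
    have hu0 : i (1, 0) ∉ R := fun h => (mem_sdiff.1 (hRS h)).2 h10
    exact hR R (fun y hy => spread hS R h5 Y hY hiY hx0 hu0 hadj y (hc _ hiY y hy)) h5
  intro G hG
  exact tas lls G i₁ i₂ (p1.sub hG) (p2.sub hG) hd (key i₁ p1 h1 G hG) (key i₂ p2 h2 G hG)

/-- existence of two flat patches near a point of the shortest cycle -/
theorem two_patches (hT : Surf T) (hEW : EW T 42600) {x₀ : V}
    {w : (sk T).Walk x₀ x₀} (hw : Shortest T w) {x : V} (hx : x ∈ w.support)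
    (hhub : ∀ h, 7 ≤ dg T h → 1330 < (sk T).dist x h) :
    ∃ f g : ℤ × ℤ → V, Patch (sk T) f ∧ Patch (sk T) g ∧
      (∀ p q, hn p ≤ 6 → hn q ≤ 6 → f p ≠ g q) ∧ f (0, 0) ∈ w.support ∧ g (0, 0) ∈ w.support ∧
      (sk T).dist x (f (0, 0)) ≤ 644 ∧ (sk T).dist x (g (0, 0)) ≤ 644 := by
  have hlen : 42600 ≤ w.length := by
    by_contra h
    obtain ⟨D, hD⟩ := hEW x₀ w hw.cyc (by omega)
    exact hw.nb ⟨D, hD.sub, hD.bdy⟩
  have hE : hex T x (2 * 665) ≤ 0 := by
    unfold hex
    have h0 : univ.filter (fun v => 7 ≤ dg T v ∧ (sk T).dist x v ≤ 2 * 665) = ∅ := by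
      rw [Finset.filter_eq_empty_iff]
      rintro v - ⟨h7, hd⟩
      have := hhub v h7
      omega
    rw [h0, Finset.sum_empty]
  have hlow := low_le hT hEW hw hx 0 665 (by omega) (by omega) hE
  have hball := fun h K => Pool.Agent.Helper25.KC.ball_card sh hT hw h K
  set A := w.support.toFinset.filter (fun v => (sk T).dist x v ≤ 644) with hA
  have hAc : 644 + 1 ≤ A.card := near_card hw.cyc hx 644 (by omega)
  set B1 := (lo T x 665).biUnion
    (fun h => w.support.toFinset.filter (fun v => (sk T).dist h v ≤ 21)) with hB1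
  have c1 : B1.card ≤ 595 := by
    refine le_trans (Finset.card_biUnion_le_card_mul _ _ _ (fun h _ => hball h 21)) ?_
    have := Nat.mul_le_mul_right (4 * 21 + 1) hlow
    omega
  have hgood : ∀ a ∈ A, a ∉ B1 → a ∈ w.support ∧ (∀ v, (sk T).dist a v ≤ 21 → dg T v = 6) ∧
      (sk T).dist x a ≤ 644 := by
    intro a ha hnot
    rw [hA, Finset.mem_filter, List.mem_toFinset] at ha
    have hhub' : ∀ h, 7 ≤ dg T h → 21 < (sk T).dist a h := by
      intro h h7
      have h1 := hT.conn.dist_triangle (u := x) (v := a) (w := h)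
      have h2 := hhub h h7
      omega
    refine ⟨ha.1, ?_, ha.2⟩
    intro v hv
    have h1 : ¬ 7 ≤ dg T v := by
      intro h7
      have := hhub' v h7
      omega
    have h2 : ¬ dg T v ≤ 5 := by
      intro h5
      apply hnot
      rw [hB1, Finset.mem_biUnion]
      refine ⟨v, ?_, ?_⟩
      · refine Finset.mem_filter.2 ⟨?_, h5⟩
        rw [mem_bl]
        have h1 := hT.conn.dist_triangle (u := x) (v := a) (w := v)
        omega
      · rw [Finset.mem_filter, List.mem_toFinset, SimpleGraph.dist_comm]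
        exact ⟨ha.1, by omega⟩
    omega
  obtain ⟨a, haA, haB⟩ := Finset.exists_mem_notMem_of_card_lt_card
    (show B1.card < A.card by omega)
  set B3 := w.support.toFinset.filter (fun v => (sk T).dist a v ≤ 12) with hB3
  have c4 : (B1 ∪ B3).card < A.card := by
    have h3 := Finset.card_union_le B1 B3
    have h4 : B3.card ≤ 49 := hball a 12
    omega
  obtain ⟨b, hbA, hbB⟩ := Finset.exists_mem_notMem_of_card_lt_card c4
  rw [Finset.mem_union, not_or] at hbB
  obtain ⟨ga1, ga2, ga3⟩ := hgood a haA haB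
  obtain ⟨gb1, gb2, gb3⟩ := hgood b hbA hbB.1
  have hab : 12 < (sk T).dist a b := by
    by_contra hcon
    apply hbB.2
    rw [hB3, Finset.mem_filter, List.mem_toFinset]
    exact ⟨gb1, by omega⟩
  obtain ⟨f, hf0, hfD, hfP⟩ := good_patch hT hEW (by omega) hw ga1 (by omega) ga2
  obtain ⟨g, hg0, hgD, hgP⟩ := good_patch hT hEW (by omega) hw gb1 (by omega) gb2
  refine ⟨f, g, hfP, hgP, ?_, by rw [hf0]; exact ga1, by rw [hg0]; exact gb1,
    by rw [hf0]; exact ga3, by rw [hg0]; exact gb3⟩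
  intro p q hp hq h
  have h1 := dev_dist hT hfD (hn p) hp p rfl
  have h2 := dev_dist hT hgD (hn q) hq q rfl
  rw [hf0] at h1
  rw [hg0] at h2
  have h4 := hT.conn.dist_triangle (u := a) (v := f p) (w := b)
  rw [h, SimpleGraph.dist_comm (u := g q)] at h4
  rw [h] at h1
  omega

/-- Theorem P: a planarizing region without hubs through a point of the shortest cycle -/
theorem region_main (hT : Surf T) (hEW : EW T 42600) {x₀ : V}
    {w : (sk T).Walk x₀ x₀} (hw : Shortest T w) {x : V} (hx : x ∈ w.support)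
    (hhub : ∀ h, 7 ≤ dg T h → 1330 < (sk T).dist x h) (Y : Finset V)
    (hc : ∀ y ∈ Y, (rs (sk T) (Y : Set V)).Reachable x y)
    (hY : ∀ y ∈ Y, ∀ h, (sk T).Adj y h → dg T h ≤ 6)
    (hR : ∀ R : Finset V, (∀ y ∈ Y, y ∉ R ∧ ∀ v, (sk T).Adj y v → v ∉ R) →
      (∀ x ∈ R, 5 ≤ dR (sk T) R x) → Mac (rs (sk T) (R : Set V))) :
    ∀ G ≤ sk T, AllEq G := by
  obtain ⟨f, g, hf, hg, hd, hf0, hg0, hfx, hgx⟩ := two_patches hT hEW hw hx hhub
  set Y' := Y ∪ bl T x 644 with hY'
  -- the ball is connected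
  have hball : ∀ n : ℕ, ∀ v, (sk T).dist x v = n → n ≤ 644 →
      (rs (sk T) (Y' : Set V)).Reachable x v := by
    intro n
    induction n with
    | zero =>
      intro v hv _
      have : x = v := (hT.conn.dist_eq_zero_iff).1 hv
      rw [this]
    | succ n ih =>
      intro v hv hn
      obtain ⟨u, huv, hu⟩ := pred hT hv
      refine (ih u hu (by omega)).trans (SimpleGraph.Adj.reachable ?_)
      refine ⟨huv, ?_, ?_⟩
      · rw [hY', Finset.mem_coe, Finset.mem_union, mem_bl]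
        right; omega
      · rw [hY', Finset.mem_coe, Finset.mem_union, mem_bl]
        right; omega
  have hreach : ∀ y ∈ Y', (rs (sk T) (Y' : Set V)).Reachable x y := by
    intro y hy
    rcases Finset.mem_union.1 hy with h | h
    · refine (hc y h).mono ?_
      intro a b hab
      exact ⟨hab.1, Finset.mem_coe.2 (Finset.mem_union_left _ (Finset.mem_coe.1 hab.2.1)),
        Finset.mem_coe.2 (Finset.mem_union_left _ (Finset.mem_coe.1 hab.2.2))⟩
    · exact hball _ y rfl (mem_bl.1 h)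
  refine region_patches hT Y' (fun y hy y' hy' => (hreach y hy).symm.trans (hreach y' hy'))
    ?_ ?_ f g hf hg hd ?_ ?_
  · intro y hy h hyh
    rcases Finset.mem_union.1 hy with h1 | h1
    · exact hY y h1 h hyh
    · by_contra hcon
      have h2 := hhub h (by omega)
      have h3 := dist_adj hT (x := x) hyh
      rw [mem_bl] at h1
      omega
  · intro R hRY h5
    exact hR R (fun y hy => hRY y (Finset.mem_union_left _ hy)) h5
  · exact Finset.mem_union_right _ (mem_bl.2 hfx)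
  · exact Finset.mem_union_right _ (mem_bl.2 hgx)

end Pool.Agent.Helper94.KC.TW
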